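import Pool.Agent.TH976.QC.Land
import Pool.Agent.TH976.Add

/-!
Two boundary intervals of the quadrant: upper and lower bounds for the crossing probability in
terms of the one-arm probabilities.
-/

set_option autoImplicit false

namespace TH976
namespace QC
open Finset H974 Pool.Agent.H160R2.CV
open Pool.Agent.H160R2.CV.Quad

/-- the boundary intervals `[a, b]` and `[c, d]` are connected -/
def CNq (a b c d : ℤ) (F : Finset Edg) : Prop :=
  ∃ x y, (a ≤ x ∧ x ≤ b) ∧ (c ≤ y ∧ y ≤ d) ∧ Reach (↑F) (bt x) (bt y)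

theorem CNq_incr (S : Finset Edg) (a b c d : ℤ) : IncrE S (CNq a b c d) := by
  rintro F G h _ ⟨x, y, h1, h2, h3⟩
  exact ⟨x, y, h1, h2, h3.mono (by exact_mod_cast h)⟩

theorem CNq_mono {a b c d a' b' c' d' : ℤ} {F : Finset Edg} (h1 : a' ≤ a) (h2 : b ≤ b')
    (h3 : c' ≤ c) (h4 : d ≤ d') (h : CNq a b c d F) : CNq a' b' c' d' F := by
  obtain ⟨x, y, hx, hy, hr⟩ := h
  exact ⟨x, y, ⟨by omega, by omega⟩, ⟨by omega, by omega⟩, hr⟩

theorem CNq_left {a b c d : ℤ} {r n : ℕ} (hr : b - a + 1 ≤ r)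
    (hg : 2 * (n : ℤ) ≤ c - b) {F : Finset Edg} (h : CNq a b c d F) : Cx (bt b) r n F := by
  obtain ⟨x, y, hx, hy, hxy⟩ := h
  exact ⟨bt x, bt y, bt_in x, sd_bt_le (by omega) (by omega), le_sd_bt (by omega), hxy⟩

theorem CNq_right {a b c d : ℤ} {s n : ℕ} (hs : d - c + 1 ≤ s)
    (hg : 2 * (n : ℤ) ≤ c - b) {F : Finset Edg} (h : CNq a b c d F) : Cx (bt c) s n F := by
  obtain ⟨x, y, hx, hy, hxy⟩ := h
  exact ⟨bt y, bt x, bt_in y, sd_bt_le (by omega) (by omega), le_sd_bt (by omega), hxy.symm⟩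

theorem up_left {a b c d : ℤ} {r n : ℕ} (hr : b - a + 1 ≤ r) (hrn : r ≤ n)
    (hg : 2 * (n : ℤ) ≤ c - b) {S : Finset Edg} (hS : InQ S) :
    Pr P S (CNq a b c d) ≤ bq (bt b) r n :=
  (Pr_mono okP (fun _ _ h => CNq_left hr hg h)).trans (pr_Cx_le hS _ hrn)

theorem up_right {a b c d : ℤ} {s n : ℕ} (hs : d - c + 1 ≤ s) (hsn : s ≤ n)
    (hg : 2 * (n : ℤ) ≤ c - b) {S : Finset Edg} (hS : InQ S) :
    Pr P S (CNq a b c d) ≤ bq (bt c) s n :=
  (Pr_mono okP (fun _ _ h => CNq_right hs hg h)).trans (pr_Cx_le hS _ hsn)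

theorem up_two {a b c d : ℤ} {r s n : ℕ} (hr : b - a + 1 ≤ r) (hs : d - c + 1 ≤ s)
    (hrn : r ≤ n) (hsn : s ≤ n) (hg : 4 * (n : ℤ) + 2 ≤ c - b) {S : Finset Edg} (hS : InQ S) :
    Pr P S (CNq a b c d) ≤ bq (bt b) r n * bq (bt c) s n := by
  have hd : Disjoint (qb (bt b) n \ qb (bt b) r) (qb (bt c) n \ qb (bt c) s) := by
    refine Finset.disjoint_of_subset_left Finset.sdiff_subset
      (Finset.disjoint_of_subset_right Finset.sdiff_subset ?_)
    apply qb_disj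
    have := le_sd_bt (s := b) (t := c) (k := n + n + 1) (by push_cast; omega)
    omega
  have h1 := indep2 S _ _ hd (CxL_inc (bt b) r n) (CxL_inc (bt c) s n) (CxL_loc (bt b) r n)
    (CxL_loc (bt c) s n)
  rw [pr_CxL, pr_CxL] at h1
  refine le_trans (Pr_mono okP ?_) h1
  intro F hF h
  exact ⟨Cx_loc (hS.mono hF) hrn (CNq_left hr (by omega) h),
    Cx_loc (hS.mono hF) hsn (CNq_right hs (by omega) h)⟩

theorem bq_up {p : Vtx} (hp : InV p) {r n : ℕ} (hr : 1 ≤ r) (_hrn : r ≤ n) :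
    bq p r n ≤ (k4 * kd)⁻¹ * (aq p n / aq p r) := by
  have k40 := k4_pos
  have k41 := k4_le
  have kd0 := kd_pos
  have kd1 := kd_le
  have p0 := aq_pos hp r
  have pn := aq_pos hp n
  have hdb := aq_dbl hp r
  have b0 := bq_nonneg p r n
  rw [inv_mul_eq_div, le_div_iff₀ (by positivity), le_div_iff₀ p0]
  rcases Nat.lt_or_ge n (3 * r) with h | h
  · have h1 : aq p (3 * r) ≤ aq p n := aq_anti h.le
    calc bq p r n * (k4 * kd) * aq p r ≤ 1 * (1 * kd) * aq p r := by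
          apply mul_le_mul_of_nonneg_right _ p0.le
          exact mul_le_mul (bq_le_one _ _ _) (mul_le_mul_of_nonneg_right k41 kd0.le)
            (by positivity) zero_le_one
      _ = kd * aq p r := by ring
      _ ≤ _ := hdb.trans h1
  · have h1 := bq_le' hp hr h
    calc bq p r n * (k4 * kd) * aq p r = k4 * ((kd * aq p r) * bq p r n) := by ring
      _ ≤ k4 * (aq p (3 * r) * bq p r n) :=
          mul_le_mul_of_nonneg_left (mul_le_mul_of_nonneg_right hdb b0) k40.le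
      _ ≤ _ := h1

/-- the interval `[a, b]` is connected to distance `n` from `m` -/
def IAq (a b : ℤ) (m : Vtx) (n : ℕ) (F : Finset Edg) : Prop :=
  ∃ (x : ℤ) (v : Vtx), (a ≤ x ∧ x ≤ b) ∧ n ≤ sd v m ∧ Reach (↑F) (bt x) v

theorem IAq_incr (S : Finset Edg) (a b : ℤ) (m : Vtx) (n : ℕ) : IncrE S (IAq a b m n) := by
  rintro F G h _ ⟨x, y, h1, h2, h3⟩
  exact ⟨x, y, h1, h2, h3.mono (by exact_mod_cast h)⟩

/-- the arm of a boundary interval -/
theorem IA_low : ∃ c : ℝ, 0 < c ∧ ∀ (a b t : ℤ) (r n : ℕ), 1 ≤ r → (r : ℤ) = b - a + 1 →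
    a ≤ t → t ≤ b → r ≤ n → ∀ S : Finset Edg, InQ S → qb (bt t) (3 * n) ⊆ S →
    c * (aq (bt t) n / aq (bt t) r) ≤ Pr P S (IAq a b (bt t) n) := by
  have k40 := k4_pos
  have k41 := k4_le
  have kd0 := kd_pos
  have kd1 := kd_le
  have kr0 := kr_pos
  refine ⟨min ((1 / 2 : ℝ) ^ 27) (k4 * kd * kd ^ 3 * kr), lt_min (by positivity)
    (by positivity), ?_⟩
  intro a b t r n hr hrr hat htb hrn S hSQ hS
  have hp := bt_in t
  have pn := aq_pos hp n
  have pr := aq_pos hp r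
  rcases Nat.lt_or_ge r 27 with h27 | h27
  · -- a short interval
    have h1 : (1 / 2 : ℝ) ^ 27 ≤ aq (bt t) r :=
      le_trans (pow_le_pow_of_le_one (by norm_num) (by norm_num) h27.le) (aq_ge_pow hp r)
    have h2 : (1 / 2 : ℝ) ^ 27 * (aq (bt t) n / aq (bt t) r) ≤ aq (bt t) n := by
      rw [mul_div_assoc', div_le_iff₀ pr]
      rw [mul_comm]
      exact mul_le_mul_of_nonneg_left h1 pn.le
    calc min ((1 / 2 : ℝ) ^ 27) (k4 * kd * kd ^ 3 * kr) * (aq (bt t) n / aq (bt t) r) ≤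
        (1 / 2 : ℝ) ^ 27 * (aq (bt t) n / aq (bt t) r) :=
          mul_le_mul_of_nonneg_right (min_le_left _ _) (by positivity)
      _ ≤ _ := h2
      _ ≤ Pr P S (Ar (bt t) n) := pr_Ar_ge ((qb_mono (by omega)).trans hS)
      _ ≤ _ := by
        apply Pr_mono okP
        rintro F - ⟨v, h3, h4⟩
        exact ⟨t, v, ⟨hat, htb⟩, h3, h4⟩
  · -- a long interval
    obtain ⟨R, hR⟩ : ∃ R, R = r / 9 := ⟨_, rfl⟩
    have hR1 : 1 ≤ R := by omega
    obtain ⟨m, hm⟩ : ∃ m, m = (a + b) / 2 := ⟨_, rfl⟩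
    have hma : a ≤ m - 3 * R := by omega
    have hmb : m + 3 * R ≤ b := by omega
    have hpm := bt_in m
    have hmt : sd (bt m) (bt t) ≤ r := sd_bt_le (by omega) (by omega)
    have htm : sd (bt t) (bt m) ≤ r := by rw [sd_comm]; exact hmt
    have p1 : k4 ≤ Pr P S (CQ (bt m) R) := by
      refine pr_CQ' hpm hR1 ((qb_sub ?_).trans hS)
      omega
    have p2 : bq (bt m) R (n + r) ≤ Pr P S (Cx (bt m) R (n + r)) := by
      refine pr_Cx_ge ((qb_sub ?_).trans hS)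
      omega
    have q1 := fkg (CQ_incr S (bt m) R) (Cx_incr S (bt m) R (n + r)) (bq_nonneg _ _ _) p1 p2
    have mn := aq_pos hpm n
    have mr := aq_pos hpm r
    have mR := aq_pos hpm R
    have h1 := aq_split hpm (r := R) (n := n + r) (by omega)
    have h2 := aq_dbl hpm n
    have h3 : aq (bt m) (3 * n) ≤ aq (bt m) (n + r) := aq_anti (by omega)
    have h4 := aq_dbl3 hpm R
    have h5 : aq (bt m) (27 * R) ≤ aq (bt m) r := aq_anti (by omega)
    have h6 := aq_rat hpm hp hr hmt hrn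
    have b0 := bq_nonneg (bt m) R (n + r)
    have h7 : kd ^ 3 * aq (bt m) R ≤ aq (bt m) r := h4.trans h5
    have h8 : kd * aq (bt m) n ≤ aq (bt m) R * bq (bt m) R (n + r) := (h2.trans h3).trans h1
    have h9 : kd * kd ^ 3 * kr * (aq (bt t) n / aq (bt t) r) ≤ bq (bt m) R (n + r) := by
      rw [mul_div_assoc', div_le_iff₀ pr]
      refine le_of_mul_le_mul_left ?_ mr
      calc aq (bt m) r * (kd * kd ^ 3 * kr * aq (bt t) n) =
          kd * kd ^ 3 * (kr * (aq (bt m) r * aq (bt t) n)) := by ring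
        _ ≤ kd * kd ^ 3 * (aq (bt m) n * aq (bt t) r) :=
            mul_le_mul_of_nonneg_left h6 (by positivity)
        _ = kd ^ 3 * (kd * aq (bt m) n) * aq (bt t) r := by ring
        _ ≤ kd ^ 3 * (aq (bt m) R * bq (bt m) R (n + r)) * aq (bt t) r :=
            mul_le_mul_of_nonneg_right (mul_le_mul_of_nonneg_left h8 (by positivity)) pr.le
        _ = (kd ^ 3 * aq (bt m) R) * (bq (bt m) R (n + r) * aq (bt t) r) := by ring
        _ ≤ aq (bt m) r * (bq (bt m) R (n + r) * aq (bt t) r) :=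
            mul_le_mul_of_nonneg_right h7 (mul_nonneg b0 pr.le)
    calc min ((1 / 2 : ℝ) ^ 27) (k4 * kd * kd ^ 3 * kr) * (aq (bt t) n / aq (bt t) r) ≤
        (k4 * kd * kd ^ 3 * kr) * (aq (bt t) n / aq (bt t) r) :=
          mul_le_mul_of_nonneg_right (min_le_right _ _) (by positivity)
      _ = k4 * (kd * kd ^ 3 * kr * (aq (bt t) n / aq (bt t) r)) := by ring
      _ ≤ k4 * bq (bt m) R (n + r) := mul_le_mul_of_nonneg_left h9 k40.le
      _ ≤ _ := q1
      _ ≤ _ := by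
        apply Pr_mono okP
        rintro F hF ⟨hC, u, v, hu, hum, hvm, huv⟩
        obtain ⟨x, hx, hland⟩ := CQ_land hR1 (hSQ.mono hF) hC
        have t1 := sd_tri v (bt t) (bt m)
        exact ⟨x, v, ⟨by omega, by omega⟩, by omega,
          (hland u v hu hum (by omega) huv).symm.trans huv⟩

/-- **lower bound for the crossing probability** -/
theorem CN_low : ∃ c : ℝ, 0 < c ∧ ∀ (a b c' d : ℤ) (r s g : ℕ), 1 ≤ r → 1 ≤ s → 1 ≤ g →
    (r : ℤ) = b - a + 1 → (s : ℤ) = d - c' + 1 → (g : ℤ) = c' - b → r ≤ g → s ≤ g →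
    ∀ S : Finset Edg, InQ S → qb (bt b) (40 * g) ⊆ S →
    c * ((aq (bt b) g / aq (bt b) r) * (aq (bt c') g / aq (bt c') s)) ≤
      Pr P S (CNq a b c' d) := by
  obtain ⟨κ, hκ, hI⟩ := IA_low
  have k40 := k4_pos
  have kd0 := kd_pos
  refine ⟨(κ * kd ^ 3) * (κ * kd ^ 3) * k4, by positivity, ?_⟩
  intro a b c' d r s g hr hs hg hrr hss hgg hrg hsg S hSQ hS
  have hpb := bt_in b
  have hpc := bt_in c'
  have hbc : sd (bt c') (bt b) ≤ g := sd_bt_le (by omega) (by omega)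
  have hcb : sd (bt b) (bt c') ≤ g := by rw [sd_comm]; exact hbc
  have arm : ∀ (t : ℤ) (q n : ℕ), n ≤ 27 * g →
      kd ^ 3 * (aq (bt t) g / aq (bt t) q) ≤ aq (bt t) n / aq (bt t) q := by
    intro t q n hn
    have h1 := aq_dbl3 (bt_in t) g
    have h2 : aq (bt t) (27 * g) ≤ aq (bt t) n := aq_anti hn
    have h3 := aq_pos (bt_in t) q
    rw [mul_div_assoc']
    exact div_le_div_of_nonneg_right (h1.trans h2) h3.le
  have p1 : (κ * kd ^ 3) * (aq (bt b) g / aq (bt b) r) ≤ Pr P S (IAq a b (bt b) (12 * g)) := by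
    refine le_trans ?_ (hI a b b r (12 * g) hr hrr (by omega) le_rfl (by omega) S hSQ
      ((qb_mono (by omega)).trans hS))
    rw [mul_assoc]
    exact mul_le_mul_of_nonneg_left (arm b r (12 * g) (by omega)) hκ.le
  have p2 : (κ * kd ^ 3) * (aq (bt c') g / aq (bt c') s) ≤
      Pr P S (IAq c' d (bt c') (13 * g)) := by
    refine le_trans ?_ (hI c' d c' s (13 * g) hs hss le_rfl (by omega) (by omega) S hSQ
      ((qb_sub (by omega)).trans hS))
    rw [mul_assoc]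
    exact mul_le_mul_of_nonneg_left (arm c' s (13 * g) (by omega)) hκ.le
  have p3 : k4 ≤ Pr P S (CQ (bt b) (4 * g)) :=
    pr_CQ' hpb (by omega) ((qb_mono (by omega)).trans hS)
  have n2 : 0 ≤ (κ * kd ^ 3) * (aq (bt c') g / aq (bt c') s) :=
    mul_nonneg (by positivity) (div_nonneg (aq_nonneg _ _) (aq_nonneg _ _))
  have q1 := fkg (IAq_incr S a b (bt b) (12 * g)) (IAq_incr S c' d (bt c') (13 * g)) n2 p1 p2
  have q2 := fkg (incr_and (IAq_incr S a b (bt b) (12 * g)) (IAq_incr S c' d (bt c') (13 * g)))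
    (CQ_incr S (bt b) (4 * g)) k40.le q1 p3
  calc (κ * kd ^ 3) * (κ * kd ^ 3) * k4 *
      ((aq (bt b) g / aq (bt b) r) * (aq (bt c') g / aq (bt c') s)) =
      ((κ * kd ^ 3) * (aq (bt b) g / aq (bt b) r)) *
        ((κ * kd ^ 3) * (aq (bt c') g / aq (bt c') s)) * k4 := by ring
    _ ≤ _ := q2
    _ ≤ _ := by
      apply Pr_mono okP
      rintro F hF ⟨⟨⟨x, v, hx, hv, hxv⟩, ⟨y, w, hy, hw, hyw⟩⟩, hC⟩
      obtain ⟨z, hz⟩ := CQ_meet hpb (by omega) (hSQ.mono hF) hC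
      have t1 := sd_tri w (bt b) (bt c')
      have m1 := hz (bt x) v (bt_in x) (sd_bt_le (by push_cast; omega) (by push_cast; omega))
        (by omega) hxv
      have m2 := hz (bt y) w (bt_in y) (sd_bt_le (by push_cast; omega) (by push_cast; omega))
        (by omega) hyw
      exact ⟨x, y, hx, hy, m1.trans m2.symm⟩

end QC
end TH976
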