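import Pool.Agent.TH976.QC.DualUp

/-!
A closed dual path between two outer faces of the quadrant separates boundary intervals; the
lower bound for the probability that two boundary intervals are not connected.
-/

set_option autoImplicit false

namespace TH976
namespace QC
open Finset H974 Pool.Agent.H160R2.CV H362P
open Pool.Agent.H160R2.CV.Quad Pool.Agent.H389R2.CD

/-- the boundary edge between the boundary points `k` and `k + 1` -/
def be (k : ℤ) : Edg := if 0 ≤ k then (k, 0, true) else (0, -k - 1, false)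

/-- the outer face next to the boundary edge `k` -/
def ofc (k : ℤ) : Vtx := if 0 ≤ k then (k, -1) else (-1, -k - 1)

/-- the inner face next to the boundary edge `k` is the boundary cell number `kap k` -/
def kap (k : ℤ) : ℤ := if 0 ≤ k then k else k + 1

theorem be_pos {k : ℤ} (h : 0 ≤ k) : be k = (k, 0, true) := by unfold be; rw [if_pos h]

theorem be_neg {k : ℤ} (h : k < 0) : be k = (0, -k - 1, false) := by
  unfold be; rw [if_neg (by omega)]

theorem be_inj {k l : ℤ} (h : be k = be l) : k = l := by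
  unfold be at h
  split_ifs at h with h1 h2 h2 <;> simp only [Prod.mk.injEq, Bool.true_eq_false,
    Bool.false_eq_true, and_false, and_true, true_and] at h <;> omega

theorem bt_succ_pos {k : ℤ} (h : 0 ≤ k) : bt k = (k, 0) := by
  unfold bt; rw [Prod.mk.injEq]; omega

theorem bt_neg {k : ℤ} (h : k ≤ 0) : bt k = (0, -k) := by
  unfold bt; rw [Prod.mk.injEq]; omega

theorem be_mem {N k : ℤ} (h1 : -N ≤ k) (h2 : k < N) : be k ∈ RE 0 N 0 N := by
  unfold be
  split_ifs with h
  · rw [mem_RE_true]; omega
  · rw [mem_RE_false]; omega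

/-- the two faces next to a boundary edge -/
theorem be_faces (k : ℤ) : dsrc (be k) = ofc k ∧ dtgt (be k) = bt (kap k) := by
  unfold be ofc kap
  split_ifs with h
  · rw [bt_succ_pos h]
    simp
  · rw [bt_neg (by omega)]
    constructor
    · rw [dsrc_false, Prod.mk.injEq]
      constructor <;> ring
    · rw [dtgt_mk, Prod.mk.injEq]
      constructor <;> ring

theorem kap_mono {k l : ℤ} (h : k ≤ l) : kap k ≤ kap l := by
  unfold kap
  split_ifs <;> omega

theorem kap_surj {m n x : ℤ} (hmn : m ≤ n) (h1 : kap m ≤ x) (h2 : x ≤ kap n) :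
    ∃ p, (m ≤ p ∧ p ≤ n) ∧ kap p = x := by
  unfold kap at *
  rcases lt_trichotomy x 0 with h | h | h
  · refine ⟨x - 1, ?_, ?_⟩
    · split_ifs at h1 h2 <;> omega
    · rw [if_neg (by omega)]; ring
  · rcases le_or_gt 0 n with h3 | h3
    · refine ⟨0, ?_, ?_⟩
      · split_ifs at h1 h2 <;> omega
      · simp [h]
    · refine ⟨-1, ?_, ?_⟩
      · split_ifs at h1 h2 <;> omega
      · simp [h]
  · refine ⟨x, ?_, ?_⟩
    · split_ifs at h1 h2 <;> omega
    · rw [if_pos (by omega)]

/-- a closed dual path between two outer faces blocks open paths -/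
theorem no_quad {N p q u v : ℤ} {F : Set Edg} (hu : p < u ∧ u ≤ q) (hv : v ≤ p ∨ q < v)
    (h1 : DReach (Fᶜ ∩ ↑(RE 0 N 0 N)) (ofc p) (ofc q))
    (h2 : Reach (F ∩ ↑(RE 0 N 0 N)) (bt u) (bt v)) : False := by
  obtain ⟨Z, hZ1, hZ2⟩ := chain_of_dreach h1
  have hpq : p < q := by omega
  have hZout : ∀ e, e ∉ RE 0 N 0 N → Z e = 0 := by
    intro e he
    by_contra h
    exact he (hZ1 e h).2
  have hZF : ∀ e, e ∈ F → Z e = 0 := by
    intro e he
    by_contra h
    exact (hZ1 e h).1 he
  have hof : ∀ k x y : ℤ, 0 ≤ x → 0 ≤ y → ¬ (ofc k = (x, y)) := by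
    intro k x y hx hy h
    unfold ofc at h
    split_ifs at h <;> simp only [Prod.mk.injEq] at h <;> omega
  have hcyc : ∀ x y, 0 ≤ x → 0 ≤ y → bd Z x y = 0 := by
    intro x1 y1 h3 h4
    rw [hZ2, b2_not_of (hof _ _ _ h3 h4), b2_not_of (hof _ _ _ h3 h4), add_zero]
  set s : ℤ → ℤ → ZMod 2 := fun x y =>
    ∑ j ∈ Finset.Ico 0 y, Z (0, j, false) + ∑ i ∈ Finset.Ico 0 x, Z (i, y, true) with hs
  have sH : ∀ x y, 0 ≤ x → s (x + 1) y = s x y + Z (x, y, true) := by
    intro x y hx
    simp only [hs]
    rw [sum_Ico_int_succ hx, add_assoc]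
  have sV : ∀ (n : ℕ) (y : ℤ), 0 ≤ y →
      s (n : ℤ) (y + 1) + s (n : ℤ) y = Z ((n : ℤ), y, false) := by
    intro n y hc
    induction n with
    | zero =>
      simp only [hs, Nat.cast_zero, Finset.Ico_self, Finset.sum_empty, add_zero]
      rw [sum_Ico_int_succ hc]
      have h4 := zmod2_add_self (∑ j ∈ Finset.Ico 0 y, Z (0, j, false))
      linear_combination h4
    | succ n ih =>
      have e1 : ((n + 1 : ℕ) : ℤ) = (n : ℤ) + 1 := by push_cast; ring
      rw [e1, sH _ _ (by omega), sH _ _ (by omega)]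
      have h3 := hcyc (n : ℤ) y (by omega) hc
      unfold bd at h3
      have h4 := zmod2_add_self (Z ((n : ℤ), y, false))
      have h5 := zmod2_add_self (Z ((n : ℤ) + 1, y, false))
      linear_combination ih + h3 - h5
  have sV' : ∀ x y, 0 ≤ x → 0 ≤ y → s x (y + 1) = s x y + Z (x, y, false) := by
    intro x y hx hc
    obtain ⟨n, hn⟩ := Int.eq_ofNat_of_zero_le hx
    have h3 := sV n y hc
    rw [← hn] at h3
    have h4 := zmod2_add_self (s x y)
    linear_combination h3 - h4
  -- `s` is constant along open paths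
  have hpath : ∀ w : Vtx, Reach (F ∩ RE 0 N 0 N) (bt u) w → s w.1 w.2 = s (bt u).1 (bt u).2 := by
    intro w hw
    induction hw with
    | refl => rfl
    | @tail w' w'' _ hstep ih =>
      obtain ⟨⟨x0, y0, bo⟩, ⟨heF, heR⟩, hcase⟩ := hstep
      have hZe := hZF _ heF
      cases bo
      · have hm : 0 ≤ x0 ∧ x0 ≤ N ∧ 0 ≤ y0 ∧ y0 < N := by simpa using heR
        have h3 := sV' x0 y0 hm.1 hm.2.2.1
        rw [hZe, add_zero] at h3
        simp only [src_mk, tgt_false] at hcase
        rcases hcase with ⟨h4, h5⟩ | ⟨h4, h5⟩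
        · rw [← h4] at ih; rw [← h5]; simpa [h3] using ih
        · rw [← h5] at ih; rw [← h4]; simpa [h3] using ih
      · have hm : 0 ≤ x0 ∧ x0 < N ∧ 0 ≤ y0 ∧ y0 ≤ N := by simpa using heR
        have h3 := sH x0 y0 hm.1
        rw [hZe, add_zero] at h3
        simp only [src_mk, tgt_true] at hcase
        rcases hcase with ⟨h4, h5⟩ | ⟨h4, h5⟩
        · rw [← h4] at ih; rw [← h5]; simpa [h3] using ih
        · rw [← h5] at ih; rw [← h4]; simpa [h3] using ih
  have hend := hpath _ h2
  -- the potential along the boundary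
  obtain ⟨T, hT⟩ : ∃ T : ℤ → ZMod 2, T = fun k => s (bt k).1 (bt k).2 := ⟨_, rfl⟩
  have hTk : ∀ k, T k = s (bt k).1 (bt k).2 := fun k => by rw [hT]
  rw [← hTk, ← hTk] at hend
  have hbe : ∀ k, T k + T (k + 1) = Z (be k) := by
    intro k
    rw [hTk, hTk]
    rcases le_or_gt 0 k with hk | hk
    · rw [bt_succ_pos hk, bt_succ_pos (by omega : (0 : ℤ) ≤ k + 1), be_pos hk]
      simp only
      rw [sH k 0 hk]
      have := zmod2_add_self (s k 0)
      linear_combination this
    · rw [bt_neg hk.le, bt_neg (by omega : k + 1 ≤ 0), be_neg hk]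
      simp only
      have e : -k = (-k - 1) + 1 := by ring
      have e' : -(k + 1) = -k - 1 := by ring
      rw [e', e, add_sub_cancel_right, sV' 0 (-k - 1) le_rfl (by omega)]
      have := zmod2_add_self (s 0 (-k - 1))
      linear_combination this
  have hofi : ∀ k l : ℤ, ofc l = ofc k → l = k := by
    intro k l h
    unfold ofc at h
    split_ifs at h <;> simp only [Prod.mk.injEq] at h <;> omega
  have hrow : ∀ k, Z (be k) = (if k = p then (1 : ZMod 2) else 0)
      + (if k = q then (1 : ZMod 2) else 0) := by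
    intro k
    have h5 : Z (be k) = b2 (ofc p = ofc k) + b2 (ofc q = ofc k) := by
      rcases le_or_gt 0 k with hk | hk
      · have e : ofc k = (k, -1) := by unfold ofc; rw [if_pos hk]
        have h4 := hZ2 k (-1)
        rw [e, be_pos hk, ← h4]
        unfold bd
        rw [hZout (k, -1, true) (by simp), hZout (k, -1, false) (by simp),
          hZout (k + 1, -1, false) (by simp), show (-1 : ℤ) + 1 = 0 by ring]
        simp
      · have e : ofc k = (-1, -k - 1) := by unfold ofc; rw [if_neg (by omega)]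
        have h4 := hZ2 (-1) (-k - 1)
        rw [e, be_neg hk, ← h4]
        unfold bd
        rw [hZout (-1, -k - 1, true) (by simp), hZout (-1, -k - 1 + 1, true) (by simp),
          hZout (-1, -k - 1, false) (by simp), show (-1 : ℤ) + 1 = 0 by ring]
        simp
    rw [h5]
    congr 1
    · split_ifs with h6
      · rw [h6, b2_of rfl]
      · exact b2_not_of (fun h7 => h6 (hofi k p h7).symm)
    · split_ifs with h6
      · rw [h6, b2_of rfl]
      · exact b2_not_of (fun h7 => h6 (hofi k q h7).symm)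
  have hsum : ∀ x y r : ℤ, ∑ i ∈ Finset.Ico x y, (if i = r then (1 : ZMod 2) else 0)
      = if x ≤ r ∧ r < y then 1 else 0 := by
    intro x y r
    rw [Finset.sum_ite_eq' (Finset.Ico x y) r (fun _ => (1 : ZMod 2))]
    simp only [Finset.mem_Ico]
  have htot : ∀ x y : ℤ, x ≤ y → T x + T y = (if x ≤ p ∧ p < y then (1 : ZMod 2) else 0) +
      (if x ≤ q ∧ q < y then 1 else 0) := by
    intro x y hxy
    rw [← telescope' hxy T, Finset.sum_congr rfl (fun i _ => hbe i),
      Finset.sum_congr rfl (fun i _ => hrow i), Finset.sum_add_distrib, hsum, hsum]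
  rcases hv with h | h
  · have h3 := htot v u (by omega)
    rw [if_pos (by omega), if_neg (by omega), hend, zmod2_add_self, add_zero] at h3
    exact zero_ne_one h3
  · have h3 := htot u v (by omega)
    rw [if_neg (by omega), if_pos (by omega), hend, zmod2_add_self, zero_add] at h3
    exact zero_ne_one h3

end QC
end TH976
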