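import Pool.Agent.TH976.QC.Num
import Pool.Agent.H731R3.Cardy.Compl

/-!
If two boundary intervals of the quadrant are not connected, then there is a closed dual arm
around the gap between them.
-/

set_option autoImplicit false

namespace TH976
namespace QC
open Finset H974 Pool.Agent.H160R2.CV H362P
open Pool.Agent.H160R2.CV.Quad Pool.Agent.H389R2.CD

theorem pr_dual (S : Finset Edg) (B : Finset Edg → Prop) :
    Pr P S (fun F => B (dmp (S \ F))) = Pr P (dmp S) B := H731C.P2_dual S B

theorem dual_armQ {a b c d N t0 : ℤ} {g n : ℕ} {F : Finset Edg} (hbc : b < c)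
    (hc1 : 1 ≤ c) (ht : t0 = max b 0) (hg : (g : ℤ) = c - b)
    (hgn : g < n) (hr : 2 * (n : ℤ) + 5 ≤ b - a + 1) (hs : 2 * (n : ℤ) + 5 ≤ d - c + 1)
    (hN : t0 + n + 2 ≤ N) (hF : F ⊆ RE 0 N 0 N) (hno : ¬ CNq a b c d F) :
    CxL (bt t0) g n (dmp (RE 0 N 0 N \ F)) := by
  set R : Vtx → Prop := fun w => ∃ x, (a ≤ x ∧ x ≤ b) ∧ Reach (↑F) (bt x) w with hR
  obtain ⟨A, hA⟩ : ∃ A, A = max 0 (t0 - n - 2) := ⟨_, rfl⟩
  obtain ⟨B, hB⟩ : ∃ B, B = t0 + n + 2 := ⟨_, rfl⟩
  set W : Vtx → Prop := fun w => (R w ∨ w.1 ≤ A) ∧ w.1 < B with hW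
  have hRcl : ∀ e ∈ F, (R (src e) ↔ R (tgt e)) := by
    intro e heF
    have hm : e ∈ (↑F : Set Edg) := Finset.mem_coe.mpr heF
    constructor
    · rintro ⟨x, h3, h4⟩
      exact ⟨x, h3, h4.trans (Adj.reach ⟨e, hm, Or.inl ⟨rfl, rfl⟩⟩)⟩
    · rintro ⟨x, h3, h4⟩
      exact ⟨x, h3, h4.trans (Adj.reach ⟨e, hm, Or.inr ⟨rfl, rfl⟩⟩)⟩
  have hRI : ∀ i : ℤ, a ≤ i → i ≤ b → R (bt i) := fun i h1 h2 => ⟨i, ⟨h1, h2⟩, Reach.refl _ _⟩
  have hRJ : ∀ i : ℤ, c ≤ i → i ≤ d → ¬ R (bt i) := by
    rintro i h1 h2 ⟨x, h3, h4⟩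
    exact hno ⟨x, i, h3, ⟨h1, h2⟩, h4⟩
  have hbtp : ∀ i : ℤ, 0 ≤ i → bt i = (i, 0) := by
    intro i hi
    unfold bt
    rw [Prod.mk.injEq]
    omega
  have hbtn : ∀ y : ℤ, 0 ≤ y → bt (-y) = (0, y) := by
    intro i hi
    unfold bt
    rw [Prod.mk.injEq]
    omega
  have hn0 : (0 : ℤ) ≤ n := Int.natCast_nonneg n
  -- the bottom row
  have hWL : ∀ i : ℤ, A ≤ i → i ≤ t0 → W (i, 0) := by
    intro i h3 h4
    refine ⟨?_, by simp only; omega⟩
    rcases le_or_gt i A with h5 | h5
    · exact Or.inr h5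
    · left
      have := hRI i (by omega) (by omega)
      rwa [hbtp i (by omega)] at this
  have hWR : ∀ i : ℤ, c ≤ i → i ≤ B → ¬ W (i, 0) := by
    rintro i h3 h4 ⟨h5 | h5, -⟩
    · have := hRJ i h3 (by omega)
      rw [hbtp i (by omega)] at this
      exact this h5
    · simp only at h5
      omega
  obtain ⟨x, x', hx, hx', hrr⟩ := dual_crossing (a := A) (b := B) (c := 0)
    (d := n + 2) (by omega) (by omega) W
    (by intro y _ _; exact ⟨Or.inr (by simp), by simp only; omega⟩)
    (by rintro y _ _ ⟨-, h⟩; simp only [lt_self_iff_false] at h)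
  set G : Set Edg := bdry W ∩ ↑(LRE A B 0 (n + 2)) with hG
  have hbot : ∀ p : ℤ, ((p, 0, true) : Edg) ∈ G → t0 ≤ p ∧ p < c := by
    intro p hp
    have hm : A ≤ p ∧ p < B := by
      have := hp.2
      simp only [mem_coe, mem_LRE_true] at this
      omega
    have hbd : ¬ (W (p, 0) ↔ W (p + 1, 0)) := by
      have := hp.1
      simpa [bdry] using this
    constructor
    · by_contra h
      exact hbd ⟨fun _ => hWL _ (by omega) (by omega), fun _ => hWL _ (by omega) (by omega)⟩
    · by_contra h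
      exact hbd ⟨fun h' => absurd h' (hWR _ (by omega) (by omega)),
        fun h' => absurd h' (hWR _ (by omega) (by omega))⟩
  -- the first dual edge
  have hfirst : ((x, 0, true) : Edg) ∈ G := by
    rcases Relation.ReflTransGen.cases_head hrr with h | ⟨g, h, -⟩
    · simp only [Prod.mk.injEq] at h; omega
    · obtain ⟨⟨p, q, _ | _⟩, he, hc⟩ := h
      · have hm : A < p ∧ p < B ∧ 0 ≤ q ∧ q < n + 2 := by
          simpa only [mem_coe, mem_LRE_false] using he.2
        simp only [dsrc_false, dtgt_mk, Prod.mk.injEq] at hc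
        omega
      · have hm : A ≤ p ∧ p < B ∧ 0 ≤ q ∧ q ≤ n + 2 := by
          simpa only [mem_coe, mem_LRE_true] using he.2
        simp only [dsrc_true, dtgt_mk, Prod.mk.injEq] at hc
        rcases hc with ⟨⟨h3, h4⟩, -⟩ | ⟨-, -, h4⟩
        · have h5 : q = 0 := by omega
          rw [h3, h5] at he
          exact he
        · omega
  have hx0 := hbot x hfirst
  have hr' : Reach (dl '' G) (x, 0 - 1) (x', n + 2) := reach_dl.mpr hrr
  obtain ⟨w, hw1, hw2, hw3⟩ := first_exit (a := t0 - n) (b := t0 + n) (c := -n) (d := n)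
    (u := (x, 0 - 1)) ⟨⟨by simp only; omega, by simp only; omega⟩, by simp only; omega,
      by simp only; omega⟩ hr' (by simp only; omega)
  obtain ⟨u', hu1, hu2⟩ := last_exit (a := t0 - g) (b := t0 + g) (c := -g) (d := g)
    (x := (x, 0 - 1)) ⟨⟨by simp only; omega, by simp only; omega⟩, by simp only; omega,
      by simp only; omega⟩ hw3
  have ht0 : bt t0 = (t0, 0) := hbtp t0 (by omega)
  -- the edges of the path
  have hpath : Reach (↑(dmp (RE 0 N 0 N \ F) ∩ (qb (bt t0) n \ qb (bt t0) g)) : Set Edg) u' w := by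
    refine hu2.mono ?_
    rintro _ ⟨⟨⟨e, he, rfl⟩, he2⟩, he3⟩
    obtain ⟨p, q, _ | _⟩ := e
    · have hm : A < p ∧ p < B ∧ 0 ≤ q ∧ q < n + 2 := by
        simpa only [mem_coe, mem_LRE_false] using he.2
      have hm2 : t0 - n ≤ p - 1 ∧ p - 1 < t0 + n ∧ -n ≤ q ∧ q ≤ n := by
        simpa only [mem_coe, dl_f, mem_RE_true] using he2
      have hm3 : ¬ (t0 - g ≤ p - 1 ∧ p - 1 < t0 + g ∧ -g ≤ q ∧ q ≤ g) := by
        simpa only [mem_coe, dl_f, mem_RE_true] using he3
      have hin : ((p, q, false) : Edg) ∈ RE 0 N 0 N := by rw [mem_RE_false]; omega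
      rw [Finset.mem_coe, Finset.mem_inter, Finset.mem_sdiff, mem_dmp]
      refine ⟨?_, ?_, ?_⟩
      · rw [Equiv.symm_apply_apply, Finset.mem_sdiff]
        refine ⟨hin, fun hFe => ?_⟩
        have h3 := hRcl _ hFe
        simp only [src_mk, tgt_false] at h3
        apply he.1
        simp only [src_mk, tgt_false, hW]
        have e1 : ¬ (p ≤ A) := by omega
        simp only [e1, or_false]
        rw [h3]
      · rw [dl_f, qb, mem_RE_true, ht0]
        simp only
        omega
      · rw [dl_f, qb, mem_RE_true, ht0]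
        simp only
        omega
    · have hm : A ≤ p ∧ p < B ∧ 0 ≤ q ∧ q ≤ n + 2 := by
        simpa only [mem_coe, mem_LRE_true] using he.2
      have hm2 : t0 - n ≤ p ∧ p ≤ t0 + n ∧ -n ≤ q - 1 ∧ q - 1 < n := by
        simpa only [mem_coe, dl_t, mem_RE_false] using he2
      have hm3 : ¬ (t0 - g ≤ p ∧ p ≤ t0 + g ∧ -g ≤ q - 1 ∧ q - 1 < g) := by
        simpa only [mem_coe, dl_t, mem_RE_false] using he3
      have hin : ((p, q, true) : Edg) ∈ RE 0 N 0 N := by rw [mem_RE_true]; omega
      have hq : 1 ≤ q := by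
        by_contra hq
        have hq0 : q = 0 := by omega
        subst hq0
        have := hbot p he
        omega
      rw [Finset.mem_coe, Finset.mem_inter, Finset.mem_sdiff, mem_dmp]
      refine ⟨?_, ?_, ?_⟩
      · rw [Equiv.symm_apply_apply, Finset.mem_sdiff]
        refine ⟨hin, fun hFe => ?_⟩
        have h3 := hRcl _ hFe
        simp only [src_mk, tgt_true] at h3
        apply he.1
        simp only [src_mk, tgt_true, hW]
        have e2 : p < B := by omega
        have e3 : ¬ (p + 1 ≤ A) := by omega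
        have e4 : p + 1 < B := by omega
        simp only [e2, e3, e4, or_false, and_true]
        rcases le_or_gt p A with h5 | h5
        · -- the left side
          have hp0 : p = 0 ∧ A = 0 := by
            clear h3 hu1 hw1 hw2 he
            omega
          have h6 : R (p, q) := by
            have hq1 : a ≤ -q := by
              clear h3 hu1 hw1 hw2 he
              omega
            have hq2 : -q ≤ b := by
              clear h3 hu1 hw1 hw2 he
              omega
            rw [hp0.1, ← hbtn q (by omega)]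
            exact hRI _ hq1 hq2
          exact ⟨fun _ => h3.mp h6, fun _ => Or.inl h6⟩
        · have e1 : ¬ (p ≤ A) := by omega
          simp only [e1, or_false]
          exact h3
      · rw [dl_t, qb, mem_RE_false, ht0]
        simp only
        omega
      · rw [dl_t, qb, mem_RE_false, ht0]
        simp only
        omega
  have hIQ : InQ (dmp (RE 0 N 0 N \ F) ∩ (qb (bt t0) n \ qb (bt t0) g)) :=
    (qb_inQ (bt t0) n).mono (Finset.inter_subset_right.trans Finset.sdiff_subset)
  have hwV : InV w := by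
    rcases Relation.ReflTransGen.cases_tail hpath with h | ⟨m, -, hm⟩
    · exfalso
      rw [← h] at hu1
      unfold inR at hu1
      omega
    · exact inV_step hIQ hm
  refine ⟨u', w, inV_reach hIQ hwV hpath.symm, ?_, ?_, hpath⟩
  · rw [ht0]
    unfold sd
    unfold inR at hu1
    simp only
    omega
  · rw [ht0]
    unfold sd
    simp only
    omega

/-- **the intervals are not connected: upper bound**, gap not contained in the vertical axis -/
theorem compl_up {a b c d N t0 : ℤ} {g n : ℕ} (hbc : b < c)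
    (hc1 : 1 ≤ c) (ht : t0 = max b 0) (hg : (g : ℤ) = c - b)
    (hgn : g < n) (hr : 2 * (n : ℤ) + 5 ≤ b - a + 1) (hs : 2 * (n : ℤ) + 5 ≤ d - c + 1)
    (hN : t0 + n + 2 ≤ N) :
    Pr P (RE 0 N 0 N) (fun F => ¬ CNq a b c d F) ≤ bq (bt t0) g n := by
  have h1 : Pr P (RE 0 N 0 N) (fun F => ¬ CNq a b c d F) ≤
      Pr P (RE 0 N 0 N) (fun F => CxL (bt t0) g n (dmp (RE 0 N 0 N \ F))) :=
    Pr_mono okP (fun F hF h => dual_armQ hbc hc1 ht hg hgn hr hs hN hF h)
  refine h1.trans ?_
  rw [pr_dual, ← pr_CxL]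
  exact pr_le_loc _ _ (CxL_inc _ _ _) (CxL_loc _ _ _)

end QC
end TH976
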