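import Pool.Agent.TH976.QC.Ratio

/-!
From boxes to the quadrant.
-/

set_option autoImplicit false

namespace TH976
namespace QC
open Finset H974 Pool.Agent.H160R2.CV H362P MeasureTheory Filter Topology
open Pool.Agent.H160R2.CV.Quad Pool.Agent.H389R2.CD

/-- The boundary sets `I` and `J` are joined by an open path of the closed quadrant. -/
def JoinedQ (I J : Set ℤ) : Set (sqLattice.edgeSet → Bool) :=
  {ω | ∃ x ∈ I, ∃ y ∈ J, ∃ p : (openGraph ω).Walk (bt x) (bt y),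
    ∀ v ∈ p.support, 0 ≤ v.1 ∧ 0 ≤ v.2}

theorem RE_mono0 {N M : ℤ} (h : N ≤ M) : RE 0 N 0 N ⊆ RE 0 M 0 M := by
  rintro ⟨x, y, _ | _⟩ he
  · rw [mem_RE_false] at he ⊢
    omega
  · rw [mem_RE_true] at he ⊢
    omega

theorem walk_reachQ {ω : sqLattice.edgeSet → Bool} {u v : ℤ × ℤ} (p : (openGraph ω).Walk u v) :
    (∀ w ∈ p.support, 0 ≤ w.1 ∧ 0 ≤ w.2) →
      ∃ N : ℕ, inR 0 N 0 N u ∧ Reach (opn ω ∩ ↑(RE 0 (N : ℤ) 0 N)) u v := by
  induction p with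
  | nil =>
    rename_i u
    intro h
    have hu := h u (by simp)
    refine ⟨u.1.natAbs + u.2.natAbs, ?_, Relation.ReflTransGen.refl⟩
    unfold inR
    omega
  | cons h p ih =>
    rename_i u w z
    intro hs
    obtain ⟨N, hN, hr⟩ := ih (fun t ht => hs t (by simp [ht]))
    have hu := hs u (by simp)
    refine ⟨N + (u.1.natAbs + u.2.natAbs), ?_, ?_⟩
    · unfold inR
      omega
    · have hm : RE 0 (N : ℤ) 0 N ⊆ RE 0 ((N + (u.1.natAbs + u.2.natAbs) : ℕ) : ℤ) 0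
          ((N + (u.1.natAbs + u.2.natAbs) : ℕ) : ℤ) :=
        RE_mono0 (by omega)
      have h1 := (openGraph_adj ω u w).mp h
      obtain ⟨e, he, hc⟩ := h1
      have hiu : inR 0 ((N + (u.1.natAbs + u.2.natAbs) : ℕ) : ℤ) 0
          ((N + (u.1.natAbs + u.2.natAbs) : ℕ) : ℤ) u := by
        unfold inR
        omega
      have hiw : inR 0 ((N + (u.1.natAbs + u.2.natAbs) : ℕ) : ℤ) 0
          ((N + (u.1.natAbs + u.2.natAbs) : ℕ) : ℤ) w := by
        unfold inR at hN ⊢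
        omega
      have he2 : e ∈ RE 0 ((N + (u.1.natAbs + u.2.natAbs) : ℕ) : ℤ) 0
          ((N + (u.1.natAbs + u.2.natAbs) : ℕ) : ℤ) := by
        rcases hc with ⟨h1, h2⟩ | ⟨h1, h2⟩
        · exact H731C.RE_of_ends (by rw [h1]; exact hiu) (by rw [h2]; exact hiw)
        · exact H731C.RE_of_ends (by rw [h1]; exact hiw) (by rw [h2]; exact hiu)
      refine Relation.ReflTransGen.head ⟨e, ⟨he, Finset.mem_coe.mpr he2⟩, hc⟩ ?_
      exact hr.mono (Set.inter_subset_inter_right _ (by exact_mod_cast hm))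

theorem reach_walkQ {ω : sqLattice.edgeSet → Bool} {B D : ℤ} {u v : ℤ × ℤ}
    (hu : 0 ≤ u.1 ∧ 0 ≤ u.2) (h : Reach (opn ω ∩ ↑(RE 0 B 0 D)) u v) :
    ∃ p : (openGraph ω).Walk u v, ∀ w ∈ p.support, 0 ≤ w.1 ∧ 0 ≤ w.2 := by
  induction h with
  | refl => exact ⟨SimpleGraph.Walk.nil, by simpa using hu⟩
  | tail _ hs ih =>
    rename_i b c _
    obtain ⟨p, hp⟩ := ih
    have hc : 0 ≤ c.1 ∧ 0 ≤ c.2 := by
      obtain ⟨e, ⟨-, he⟩, hc⟩ := hs
      have := H731C.RE_ends (Finset.mem_coe.mp he)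
      rcases hc with ⟨h1, h2⟩ | ⟨h1, h2⟩
      · rw [← h2]; exact ⟨this.2.1.1, this.2.2.1⟩
      · rw [← h1]; exact ⟨this.1.1.1, this.1.2.1⟩
    have hadj : (openGraph ω).Adj b c :=
      (openGraph_adj ω b c).mpr (Adj.mono Set.inter_subset_left hs)
    refine ⟨p.concat hadj, ?_⟩
    intro w hw
    rw [SimpleGraph.Walk.support_concat] at hw
    have hw' : w ∈ p.support ∨ w = c := by simpa using hw
    rcases hw' with h | h
    · exact hp w h
    · rw [h]; exact hc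

/-- the finite-volume events -/
def EvQ (a b c d : ℤ) (N : ℕ) : Set (sqLattice.edgeSet → Bool) :=
  {ω | CNq a b c d (FF (RE 0 (N : ℤ) 0 N) ω)}

theorem evQ_iff {a b c d : ℤ} {N : ℕ} {ω : sqLattice.edgeSet → Bool} :
    ω ∈ EvQ a b c d N ↔ ∃ x y, (a ≤ x ∧ x ≤ b) ∧ (c ≤ y ∧ y ≤ d) ∧
      Reach (opn ω ∩ ↑(RE 0 (N : ℤ) 0 N)) (bt x) (bt y) := by
  show CNq a b c d (FF (RE 0 (N : ℤ) 0 N) ω) ↔ _
  unfold CNq
  rw [FF_coe]

theorem evQ_mono (a b c d : ℤ) : Monotone (EvQ a b c d) := by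
  intro N M hNM ω h
  rw [evQ_iff] at h ⊢
  obtain ⟨x, y, h1, h2, h3⟩ := h
  refine ⟨x, y, h1, h2, h3.mono (Set.inter_subset_inter_right _ ?_)⟩
  exact_mod_cast RE_mono0 (by exact_mod_cast hNM)

theorem joinedQ_eq (a b c d : ℤ) :
    JoinedQ (Set.Icc a b) (Set.Icc c d) = ⋃ N : ℕ, EvQ a b c d N := by
  ext ω
  rw [Set.mem_iUnion]
  constructor
  · rintro ⟨x, hx, y, hy, p, hp⟩
    obtain ⟨N, -, hr⟩ := walk_reachQ p hp
    exact ⟨N, evQ_iff.mpr ⟨x, y, hx, hy, hr⟩⟩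
  · rintro ⟨N, hN⟩
    obtain ⟨x, y, h1, h2, h3⟩ := evQ_iff.mp hN
    obtain ⟨p, hp⟩ := reach_walkQ (bt_in x) h3
    exact ⟨x, h1, y, h2, p, hp⟩

/-- crossing probabilities of the quadrant -/
noncomputable def crossQ (I J : Set ℤ) : ℝ := (bondLaw H731C.half).real (JoinedQ I J)

theorem crossQ_tendsto (a b c d : ℤ) :
    Tendsto (fun N : ℕ => Pr P (RE 0 (N : ℤ) 0 N) (CNq a b c d)) atTop
      (𝓝 (crossQ (Set.Icc a b) (Set.Icc c d))) := by
  have h := tendsto_measure_iUnion_atTop (μ := bondLaw H731C.half) (evQ_mono a b c d)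
  rw [← joinedQ_eq] at h
  have h2 := (ENNReal.tendsto_toReal (measure_ne_top (bondLaw H731C.half)
    (JoinedQ (Set.Icc a b) (Set.Icc c d)))).comp h
  refine h2.congr (fun N => ?_)
  exact law_event H731C.half (RE 0 (N : ℤ) 0 N) (CNq a b c d)

/-- the four bounds -/
def Bds (c C : ℝ) (p x : ℝ) : Prop :=
  c * x ^ ((1 : ℝ) / 3) ≤ p ∧ p ≤ C * x ^ ((1 : ℝ) / 3) ∧
    c * (1 - x) ^ ((1 : ℝ) / 3) ≤ 1 - p ∧ 1 - p ≤ C * (1 - x) ^ ((1 : ℝ) / 3)

theorem Bds.lim {c C : ℝ} {p x : ℕ → ℝ} {p' x' : ℝ} (h : ∀ᶠ n in atTop, Bds c C (p n) (x n))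
    (hp : Tendsto p atTop (𝓝 p')) (hx : Tendsto x atTop (𝓝 x')) : Bds c C p' x' := by
  have hx1 : Tendsto (fun n => (x n) ^ ((1 : ℝ) / 3)) atTop (𝓝 (x' ^ ((1 : ℝ) / 3))) :=
    hx.rpow_const (Or.inr (by norm_num))
  have hx2 : Tendsto (fun n => (1 - x n) ^ ((1 : ℝ) / 3)) atTop
      (𝓝 ((1 - x') ^ ((1 : ℝ) / 3))) := (hx.const_sub 1).rpow_const (Or.inr (by norm_num))
  refine ⟨le_of_tendsto_of_tendsto (hx1.const_mul c) hp ?_,
    le_of_tendsto_of_tendsto hp (hx1.const_mul C) ?_,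
    le_of_tendsto_of_tendsto (hx2.const_mul c) (hp.const_sub 1) ?_,
    le_of_tendsto_of_tendsto (hp.const_sub 1) (hx2.const_mul C) ?_⟩
  · filter_upwards [h] with n hn using hn.1
  · filter_upwards [h] with n hn using hn.2.1
  · filter_upwards [h] with n hn using hn.2.2.1
  · filter_upwards [h] with n hn using hn.2.2.2

/-- **power bounds in the quadrant** -/
theorem quad_bounds (hA : ArS) : ∃ c C : ℝ, 0 < c ∧ 0 < C ∧ ∀ a b c' d : ℤ, a ≤ b → b < c' →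
    c' ≤ d → 0 < cr a b c' d ∧ cr a b c' d < 1 ∧
      Bds c C (crossQ (Set.Icc a b) (Set.Icc c' d)) (cr a b c' d) := by
  obtain ⟨c, C, hc, hC, H⟩ := box_bounds hA
  refine ⟨c, C, hc, hC, ?_⟩
  intro a b c' d hab hbc hcd
  obtain ⟨x0, x1, N0, h⟩ := H a b c' d hab hbc hcd
  refine ⟨x0, x1, Bds.lim (p := fun N : ℕ => Pr P (RE 0 (N : ℤ) 0 N) (CNq a b c' d))
    (x := fun _ => cr a b c' d) ?_ (crossQ_tendsto a b c' d) tendsto_const_nhds⟩
  filter_upwards [eventually_ge_atTop N0.toNat] with N hN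
  exact h N (by omega)

theorem joinedQ_union {I J : ℕ → Set ℤ} (hI : Monotone I) (hJ : Monotone J) :
    JoinedQ (⋃ n, I n) (⋃ n, J n) = ⋃ n, JoinedQ (I n) (J n) := by
  ext ω
  rw [Set.mem_iUnion]
  constructor
  · rintro ⟨x, hx, y, hy, p, hp⟩
    obtain ⟨n, hn⟩ := Set.mem_iUnion.mp hx
    obtain ⟨m, hm⟩ := Set.mem_iUnion.mp hy
    exact ⟨max n m, x, hI (le_max_left _ _) hn, y, hJ (le_max_right _ _) hm, p, hp⟩
  · rintro ⟨n, x, hx, y, hy, p, hp⟩
    exact ⟨x, Set.mem_iUnion.mpr ⟨n, hx⟩, y, Set.mem_iUnion.mpr ⟨n, hy⟩, p, hp⟩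

theorem crossQ_union {I J : ℕ → Set ℤ} (hI : Monotone I) (hJ : Monotone J) :
    Tendsto (fun n => crossQ (I n) (J n)) atTop (𝓝 (crossQ (⋃ n, I n) (⋃ n, J n))) := by
  have hm : Monotone (fun n => JoinedQ (I n) (J n)) := by
    rintro M M' hMM ω ⟨x, hx, y, hy, p, hp⟩
    exact ⟨x, hI hMM hx, y, hJ hMM hy, p, hp⟩
  have h := tendsto_measure_iUnion_atTop (μ := bondLaw H731C.half) hm
  rw [← joinedQ_union hI hJ] at h
  exact (ENNReal.tendsto_toReal (measure_ne_top (bondLaw H731C.half)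
    (JoinedQ (⋃ n, I n) (⋃ n, J n)))).comp h

theorem Iic_union (b : ℤ) : (⋃ n : ℕ, Set.Icc (-(n : ℤ)) b) = Set.Iic b := by
  ext x
  rw [Set.mem_iUnion]
  constructor
  · rintro ⟨n, hn⟩; exact hn.2
  · intro h
    exact ⟨x.natAbs, ⟨by omega, h⟩⟩

theorem Ici_union (b : ℤ) : (⋃ n : ℕ, Set.Icc b (n : ℤ)) = Set.Ici b := by
  ext x
  rw [Set.mem_iUnion]
  constructor
  · rintro ⟨n, hn⟩; exact hn.1
  · intro h
    exact ⟨x.natAbs, ⟨h, by omega⟩⟩

theorem ratio_one (A B : ℝ) : Tendsto (fun n : ℕ => (A + ((n : ℝ) + 1) ^ 2) / (B + ((n : ℝ) + 1) ^ 2))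
    atTop (𝓝 1) := by
  have h0 : Tendsto (fun n : ℕ => B + ((n : ℝ) + 1) ^ 2) atTop atTop := by
    apply tendsto_atTop_add_const_left
    have h1 : Tendsto (fun n : ℕ => (n : ℝ) + 1) atTop atTop :=
      tendsto_atTop_add_const_right _ _ tendsto_natCast_atTop_atTop
    exact (tendsto_pow_atTop (by norm_num)).comp h1
  have h2 : Tendsto (fun n : ℕ => 1 + (A - B) / (B + ((n : ℝ) + 1) ^ 2)) atTop (𝓝 (1 + 0)) :=
    (h0.const_div_atTop (A - B)).const_add 1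
  rw [add_zero] at h2
  refine h2.congr' ?_
  filter_upwards [h0.eventually_gt_atTop 0] with n hn
  field_simp
  ring

/-- the limit of the cross-ratio when the first point goes to `-∞` -/
theorem cr_lim_left (b c d : ℤ) : Tendsto (fun n : ℕ => cr (-(n : ℤ)) b c d) atTop
    (𝓝 ((sq ((d : ℝ) + 1) - sq c) / (sq ((d : ℝ) + 1) - sq b))) := by
  have h := (ratio_one (sq b) (sq c)).mul_const
    ((sq ((d : ℝ) + 1) - sq c) / (sq ((d : ℝ) + 1) - sq b))
  rw [one_mul] at h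
  refine h.congr (fun n => ?_)
  unfold cr H731C.crossRatio
  have e : sq (((-(n : ℤ) : ℤ) : ℝ) - 1) = -((n : ℝ) + 1) ^ 2 := by
    have e1 : (((-(n : ℤ) : ℤ) : ℝ) - 1) = -((n : ℝ) + 1) := by push_cast; ring
    rw [e1, sq_neg]
    unfold sq
    rw [abs_of_nonneg (by positivity : (0 : ℝ) ≤ (n : ℝ) + 1)]
    ring
  rw [e, div_mul_div_comm, sub_neg_eq_add, sub_neg_eq_add]

/-- the limit of the cross-ratio when the last point goes to `+∞` -/
theorem cr_lim_right (a b c : ℤ) : Tendsto (fun n : ℕ => cr a b c (n : ℤ)) atTop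
    (𝓝 ((sq b - sq ((a : ℝ) - 1)) / (sq c - sq ((a : ℝ) - 1)))) := by
  have h := (ratio_one (-sq c) (-sq b)).const_mul
    ((sq b - sq ((a : ℝ) - 1)) / (sq c - sq ((a : ℝ) - 1)))
  rw [mul_one] at h
  refine h.congr (fun n => ?_)
  unfold cr H731C.crossRatio
  have e : sq (((n : ℤ) : ℝ) + 1) = ((n : ℝ) + 1) ^ 2 := by
    unfold sq
    rw [abs_of_nonneg (by positivity : (0 : ℝ) ≤ (((n : ℤ) : ℝ) + 1))]
    push_cast
    ring
  rw [e, div_mul_div_comm]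
  congr 2 <;> ring

/-- from power bounds to Cardy's function -/
theorem to_cardy {c C : ℝ} (hc : 0 < c) (hC : 0 < C) {k K : ℝ} (hk : 0 < k) (hK : 0 < K)
    {p x : ℝ} (x0 : 0 < x) (x1 : x < 1) (hb : Bds c C p x)
    (hF : k * x ^ ((1 : ℝ) / 3) ≤ H731C.cardyF x ∧ H731C.cardyF x ≤ K * x ^ ((1 : ℝ) / 3) ∧
      k * (1 - x) ^ ((1 : ℝ) / 3) ≤ 1 - H731C.cardyF x ∧
      1 - H731C.cardyF x ≤ K * (1 - x) ^ ((1 : ℝ) / 3)) :
    c / K * H731C.cardyF x ≤ p ∧ p ≤ C / k * H731C.cardyF x ∧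
    c / K * (1 - H731C.cardyF x) ≤ 1 - p ∧ 1 - p ≤ C / k * (1 - H731C.cardyF x) := by
  obtain ⟨b1, b2, b3, b4⟩ := hb
  obtain ⟨k1, k2, k3, k4⟩ := hF
  refine ⟨?_, ?_, ?_, ?_⟩
  · calc c / K * H731C.cardyF x ≤ c / K * (K * x ^ ((1 : ℝ) / 3)) :=
          mul_le_mul_of_nonneg_left k2 (by positivity)
      _ = c * x ^ ((1 : ℝ) / 3) := by field_simp
      _ ≤ _ := b1
  · calc p ≤ C * x ^ ((1 : ℝ) / 3) := b2
      _ = C / k * (k * x ^ ((1 : ℝ) / 3)) := by field_simp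
      _ ≤ _ := mul_le_mul_of_nonneg_left k1 (by positivity)
  · calc c / K * (1 - H731C.cardyF x) ≤ c / K * (K * (1 - x) ^ ((1 : ℝ) / 3)) :=
          mul_le_mul_of_nonneg_left k4 (by positivity)
      _ = c * (1 - x) ^ ((1 : ℝ) / 3) := by field_simp
      _ ≤ _ := b3
  · calc 1 - p ≤ C * (1 - x) ^ ((1 : ℝ) / 3) := b4
      _ = C / k * (k * (1 - x) ^ ((1 : ℝ) / 3)) := by field_simp
      _ ≤ _ := mul_le_mul_of_nonneg_left k3 (by positivity)

/-- the four bounds with Cardy's function -/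
def CBd (c C : ℝ) (p x : ℝ) : Prop :=
  c * H731C.cardyF x ≤ p ∧ p ≤ C * H731C.cardyF x ∧
    c * (1 - H731C.cardyF x) ≤ 1 - p ∧ 1 - p ≤ C * (1 - H731C.cardyF x)

theorem sq_strictMono : StrictMono sq := by
  intro x y h
  unfold sq
  rcases le_total 0 x with hx | hx
  · rw [abs_of_nonneg hx, abs_of_nonneg (hx.trans h.le)]
    nlinarith
  · rw [abs_of_nonpos hx]
    rcases le_total 0 y with hy | hy
    · rw [abs_of_nonneg hy]
      rcases eq_or_lt_of_le hx with h0 | h0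
      · rw [h0] at h ⊢
        nlinarith
      · nlinarith [mul_pos_of_neg_of_neg h0 h0, mul_nonneg hy hy]
    · rw [abs_of_nonpos hy]
      nlinarith

/-- **Cardy's formula up to constants in the quadrant** -/
theorem cardy_quadrant (hA : ArS) : ∃ c C : ℝ, 0 < c ∧ 0 < C ∧
    (∀ a b c' d : ℤ, a ≤ b → b < c' → c' ≤ d →
      CBd c C (crossQ (Set.Icc a b) (Set.Icc c' d)) (cr a b c' d)) ∧
    (∀ b c' d : ℤ, b < c' → c' ≤ d →
      CBd c C (crossQ (Set.Iic b) (Set.Icc c' d))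
        ((sq ((d : ℝ) + 1) - sq c') / (sq ((d : ℝ) + 1) - sq b))) ∧
    (∀ a b c' : ℤ, a ≤ b → b < c' →
      CBd c C (crossQ (Set.Icc a b) (Set.Ici c'))
        ((sq b - sq ((a : ℝ) - 1)) / (sq c' - sq ((a : ℝ) - 1)))) := by
  obtain ⟨c, C, hc, hC, H⟩ := quad_bounds hA
  obtain ⟨k, K, hk, hK, HF⟩ := H731C.cardyF_bounds
  refine ⟨c / K, C / k, by positivity, by positivity, ?_, ?_, ?_⟩
  · intro a b c' d hab hbc hcd
    obtain ⟨x0, x1, h⟩ := H a b c' d hab hbc hcd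
    exact to_cardy hc hC hk hK x0 x1 h (HF _ x0 x1)
  · intro b c' d hbc hcd
    have h1 : sq (b : ℝ) < sq c' := sq_strictMono (by exact_mod_cast hbc)
    have h2 : sq (c' : ℝ) < sq ((d : ℝ) + 1) := sq_strictMono (by
      have : (c' : ℝ) ≤ d := by exact_mod_cast hcd
      linarith)
    have x0 : 0 < (sq ((d : ℝ) + 1) - sq c') / (sq ((d : ℝ) + 1) - sq b) :=
      div_pos (by linarith) (by linarith)
    have x1 : (sq ((d : ℝ) + 1) - sq c') / (sq ((d : ℝ) + 1) - sq b) < 1 := by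
      rw [div_lt_one (by linarith)]
      linarith
    refine to_cardy hc hC hk hK x0 x1 ?_ (HF _ x0 x1)
    have hp := crossQ_union (I := fun n : ℕ => Set.Icc (-(n : ℤ)) b)
      (J := fun _ => Set.Icc c' d) (fun n m h x hx => ⟨by
        have : (n : ℤ) ≤ m := by exact_mod_cast h
        have := hx.1
        omega, hx.2⟩) (fun _ _ _ => le_rfl)
    rw [Iic_union, Set.iUnion_const] at hp
    refine Bds.lim ?_ hp (cr_lim_left b c' d)
    filter_upwards [eventually_ge_atTop b.natAbs] with n hn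
    exact (H (-(n : ℤ)) b c' d (by omega) hbc hcd).2.2
  · intro a b c' hab hbc
    have h1 : sq (b : ℝ) < sq c' := sq_strictMono (by exact_mod_cast hbc)
    have h2 : sq ((a : ℝ) - 1) < sq b := sq_strictMono (by
      have : (a : ℝ) ≤ b := by exact_mod_cast hab
      linarith)
    have x0 : 0 < (sq b - sq ((a : ℝ) - 1)) / (sq c' - sq ((a : ℝ) - 1)) :=
      div_pos (by linarith) (by linarith)
    have x1 : (sq b - sq ((a : ℝ) - 1)) / (sq c' - sq ((a : ℝ) - 1)) < 1 := by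
      rw [div_lt_one (by linarith)]
      linarith
    refine to_cardy hc hC hk hK x0 x1 ?_ (HF _ x0 x1)
    have hp := crossQ_union (I := fun _ : ℕ => Set.Icc a b)
      (J := fun n : ℕ => Set.Icc c' (n : ℤ)) (fun _ _ _ => le_rfl) (fun n m h x hx => ⟨hx.1, by
        have : (n : ℤ) ≤ m := by exact_mod_cast h
        have := hx.2
        omega⟩)
    rw [Ici_union, Set.iUnion_const] at hp
    refine Bds.lim ?_ hp (cr_lim_right a b c')
    filter_upwards [eventually_ge_atTop c'.natAbs] with n hn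
    exact (H a b c' (n : ℤ) hab hbc (by omega)).2.2

end QC
end TH976
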