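import Pool.Agent.TH976.Circ

/-!
Boundary points of the quadrant and the circuits which land on the boundary.
-/

set_option autoImplicit false

namespace TH976
namespace QC
open Finset H974 Pool.Agent.H160R2.CV
open Pool.Agent.H160R2.CV.Quad
open H973 (dlt dlt_pos dlt_le rswL)

/-- the boundary point with parameter `t`: on the horizontal axis for `t ≥ 0`, on the vertical
axis for `t ≤ 0` -/
def bt (t : ℤ) : Vtx := (max t 0, max (-t) 0)

theorem bt_in (t : ℤ) : InV (bt t) := by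
  unfold InV bt
  simp only
  omega

theorem sd_bt_le {s t : ℤ} {k : ℕ} (h1 : s - t ≤ k) (h2 : t - s ≤ k) : sd (bt s) (bt t) ≤ k := by
  unfold sd bt
  simp only
  omega

theorem le_sd_bt {s t : ℤ} {k : ℕ} (h : 2 * (k : ℤ) ≤ s - t ∨ 2 * (k : ℤ) ≤ t - s) :
    k ≤ sd (bt s) (bt t) := by
  unfold sd bt
  simp only
  omega

/-- a circuit meets every crossing, and lands on the boundary -/
theorem CQ_land {m : ℤ} {R : ℕ} (hR : 1 ≤ R) {F : Finset Edg} (hF : InQ F)
    (h : CQ (bt m) R F) : ∃ x : ℤ, (m - 3 * R ≤ x ∧ x ≤ m + 3 * R) ∧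
      ∀ u v : Vtx, InV u → sd u (bt m) ≤ R → 3 * R ≤ sd v (bt m) →
      Reach (↑F) u v → Reach (↑F) u (bt x) := by
  obtain ⟨⟨⟨xr, xr', hxr, hxr', hr⟩, ⟨yt, yt', hyt, hyt', ht⟩⟩, hl, hb⟩ := h
  obtain ⟨c1, hc1e⟩ : ∃ c1, c1 = (bt m).1 := ⟨_, rfl⟩
  obtain ⟨c2, hc2e⟩ : ∃ c2, c2 = (bt m).2 := ⟨_, rfl⟩
  rw [← hc1e, ← hc2e] at hr ht hl hb
  rw [← hc1e] at hxr hxr'
  rw [← hc2e] at hyt hyt'
  have e1 : c1 = max m 0 := hc1e
  have e2 : c2 = max (-m) 0 := hc2e
  have hR' : (1 : ℤ) ≤ R := by exact_mod_cast hR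
  have hr' := hr.mono (Set.inter_subset_inter_right (↑F : Set Edg)
    (by exact_mod_cast TBE_subset_RE :
      (↑(TBE (c1 + R) (c1 + 3 * R) (max 0 (c2 - 3 * R)) (c2 + 3 * R)) : Set Edg) ⊆ _))
  have ht' := ht.mono (Set.inter_subset_inter_right (↑F : Set Edg)
    (by exact_mod_cast LRE_subset_RE :
      (↑(LRE (max 0 (c1 - 3 * R)) (c1 + 3 * R) (c2 + R) (c2 + 3 * R)) : Set Edg) ⊆ _))
  have mTR : Reach (↑F ∩ ↑(RE (max 0 (c1 - 3 * R)) (c1 + 3 * R) (max 0 (c2 - 3 * R))
      (c2 + 3 * R))) (max 0 (c1 - 3 * (R : ℤ)), yt) (xr, max 0 (c2 - 3 * (R : ℤ))) :=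
    cross_meet (a := c1 + R) (b := c1 + 3 * R) (c := c2 + R) (d := c2 + 3 * R) (by omega)
      (by omega) le_rfl (by omega) (by omega) le_rfl ht' (by simp only; omega)
      (by simp only; omega) hr' (by simp only; omega) (by simp only; omega)
  -- the landing point
  have hland : ∃ x : ℤ, (m - 3 * R ≤ x ∧ x ≤ m + 3 * R) ∧
      Reach (↑F) (xr, max 0 (c2 - 3 * (R : ℤ))) (bt x) := by
    rcases le_total 0 m with hm | hm
    · refine ⟨xr, ⟨by omega, by omega⟩, ?_⟩
      have e : bt xr = (xr, max 0 (c2 - 3 * (R : ℤ))) := by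
        unfold bt
        rw [Prod.mk.injEq]
        omega
      rw [e]
      exact Reach.refl _ _
    · refine ⟨-yt, ⟨by omega, by omega⟩, ?_⟩
      have e : bt (-yt) = (max 0 (c1 - 3 * (R : ℤ)), yt) := by
        unfold bt
        rw [Prod.mk.injEq]
        omega
      rw [e]
      exact (mTR.mono Set.inter_subset_left).symm
  obtain ⟨x, hx, hzx⟩ := hland
  refine ⟨x, hx, ?_⟩
  intro u v hu huc hvc huv
  have huc' : max (u.1 - c1).natAbs (u.2 - c2).natAbs ≤ R := by rw [hc1e, hc2e]; exact huc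
  have hvc' : 3 * R ≤ max (v.1 - c1).natAbs (v.2 - c2).natAbs := by rw [hc1e, hc2e]; exact hvc
  obtain ⟨w, h1, h2, h3⟩ := first_exit (a := c1 - 3 * R) (b := c1 + 3 * R) (c := c2 - 3 * R)
    (d := c2 + 3 * R) (by unfold inR; omega) huv (by omega)
  have hB : (↑F : Set Edg) ∩ ↑(RE (c1 - 3 * R) (c1 + 3 * R) (c2 - 3 * R) (c2 + 3 * R)) ⊆
      ↑F ∩ ↑(RE (max 0 (c1 - 3 * R)) (c1 + 3 * R) (max 0 (c2 - 3 * R)) (c2 + 3 * R)) := by
    rintro ⟨x, y, _ | _⟩ ⟨k1, k2⟩
    · refine ⟨k1, ?_⟩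
      have := hF _ (Finset.mem_coe.mp k1)
      simp only at this
      rw [Finset.mem_coe, mem_RE_false] at k2
      rw [Finset.mem_coe, mem_RE_false]
      omega
    · refine ⟨k1, ?_⟩
      have := hF _ (Finset.mem_coe.mp k1)
      simp only at this
      rw [Finset.mem_coe, mem_RE_true] at k2
      rw [Finset.mem_coe, mem_RE_true]
      omega
  have hP := h3.mono hB
  have hw : InV w := inV_reach hF hu (h3.mono Set.inter_subset_left)
  unfold InV at hw hu
  unfold inR at h1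
  refine Reach.trans ?_ hzx
  rcases h2 with h2 | h2 | h2 | h2
  · -- left
    have h3R : 3 * (R : ℤ) ≤ c1 := by omega
    obtain ⟨xl, xl', hxl, hxl', hl1⟩ := hl h3R
    have hl' := hl1.mono (Set.inter_subset_inter_right (↑F : Set Edg)
      (by exact_mod_cast TBE_subset_RE :
        (↑(TBE (c1 - 3 * R) (c1 - R) (max 0 (c2 - 3 * R)) (c2 + 3 * R)) : Set Edg) ⊆ _))
    have mTL : Reach (↑F ∩ ↑(RE (max 0 (c1 - 3 * R)) (c1 + 3 * R) (max 0 (c2 - 3 * R))
        (c2 + 3 * R))) (max 0 (c1 - 3 * (R : ℤ)), yt) (xl, max 0 (c2 - 3 * (R : ℤ))) :=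
      cross_meet (a := c1 - 3 * R) (b := c1 - R) (c := c2 + R) (d := c2 + 3 * R) (by omega)
        (by omega) (by omega) (by omega) (by omega) le_rfl ht' (by simp only; omega)
        (by simp only; omega) hl' (by simp only; omega) (by simp only; omega)
    have m : Reach (↑F ∩ ↑(RE (max 0 (c1 - 3 * R)) (c1 + 3 * R) (max 0 (c2 - 3 * R))
        (c2 + 3 * R))) w (xl, max 0 (c2 - 3 * (R : ℤ))) :=
      cross_meet (a := c1 - 3 * R) (b := c1 - R) (c := max 0 (c2 - 3 * R)) (d := c2 + 3 * R)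
        (by omega) (by omega) (by omega) le_rfl (by omega) le_rfl hP.symm (by omega)
        (by omega) hl' (by simp only; omega) (by simp only; omega)
    exact (hP.trans (m.trans (mTL.symm.trans mTR))).mono Set.inter_subset_left
  · -- right
    exact (cross_meet (a := c1 + R) (b := c1 + 3 * R) (c := max 0 (c2 - 3 * R))
      (d := c2 + 3 * R) (by omega) (by omega) le_rfl le_rfl (by omega) le_rfl hP (by omega)
      h2.ge hr' (by simp only; omega) (by simp only; omega)).mono Set.inter_subset_left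
  · -- bottom
    have h3R : 3 * (R : ℤ) ≤ c2 := by omega
    obtain ⟨yb, yb', hyb, hyb', hb1⟩ := hb h3R
    have hb' := hb1.mono (Set.inter_subset_inter_right (↑F : Set Edg)
      (by exact_mod_cast LRE_subset_RE :
        (↑(LRE (max 0 (c1 - 3 * R)) (c1 + 3 * R) (c2 - 3 * R) (c2 - R)) : Set Edg) ⊆ _))
    have mBR : Reach (↑F ∩ ↑(RE (max 0 (c1 - 3 * R)) (c1 + 3 * R) (max 0 (c2 - 3 * R))
        (c2 + 3 * R))) (max 0 (c1 - 3 * (R : ℤ)), yb) (xr, max 0 (c2 - 3 * (R : ℤ))) :=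
      cross_meet (a := c1 + R) (b := c1 + 3 * R) (c := c2 - 3 * R) (d := c2 - R) (by omega)
        (by omega) le_rfl (by omega) (by omega) (by omega) hb' (by simp only; omega)
        (by simp only; omega) hr' (by simp only; omega) (by simp only; omega)
    have m : Reach (↑F ∩ ↑(RE (max 0 (c1 - 3 * R)) (c1 + 3 * R) (max 0 (c2 - 3 * R))
        (c2 + 3 * R))) (max 0 (c1 - 3 * (R : ℤ)), yb) w :=
      cross_meet (a := max 0 (c1 - 3 * R)) (b := c1 + 3 * R) (c := c2 - 3 * R) (d := c2 - R)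
        le_rfl (by omega) le_rfl (by omega) (by omega) (by omega) hb' (by simp only; omega)
        (by simp only; omega) hP.symm (by omega) (by omega)
    exact (hP.trans (m.symm.trans mBR)).mono Set.inter_subset_left
  · -- top
    have m : Reach (↑F ∩ ↑(RE (max 0 (c1 - 3 * R)) (c1 + 3 * R) (max 0 (c2 - 3 * R))
        (c2 + 3 * R))) (max 0 (c1 - 3 * (R : ℤ)), yt) u :=
      cross_meet (a := max 0 (c1 - 3 * R)) (b := c1 + 3 * R) (c := c2 + R) (d := c2 + 3 * R)
        le_rfl (by omega) le_rfl (by omega) (by omega) le_rfl ht' (by simp only; omega)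
        (by simp only; omega) hP (by omega) (by omega)
    exact (m.symm.trans mTR).mono Set.inter_subset_left

end QC
end TH976
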