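import Pool.Agent.TH976.QC.DualLow
import Pool.Agent.TH976.Arms

/-!
The lower bound for the probability that two boundary intervals are not connected.
-/

set_option autoImplicit false

namespace TH976
namespace QC
open Finset H974 Pool.Agent.H160R2.CV H362P
open Pool.Agent.H160R2.CV.Quad Pool.Agent.H389R2.CD

/-- the interior edges of the box -/
noncomputable def intE (N : ℤ) : Finset Edg :=
  (RE 0 N 0 N).filter (fun e => if e.2.2 then 1 ≤ e.2.1 else 1 ≤ e.1)

theorem mem_intE_true {N x y : ℤ} :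
    ((x, y, true) : Edg) ∈ intE N ↔ (0 ≤ x ∧ x < N) ∧ (1 ≤ y ∧ y ≤ N) := by
  unfold intE
  rw [Finset.mem_filter, mem_RE_true]
  simp only [if_true]
  omega

theorem mem_intE_false {N x y : ℤ} :
    ((x, y, false) : Edg) ∈ intE N ↔ (1 ≤ x ∧ x ≤ N) ∧ (0 ≤ y ∧ y < N) := by
  unfold intE
  rw [Finset.mem_filter, mem_RE_false]
  simp only [Bool.false_eq_true, if_false]
  omega

theorem intE_sub (N : ℤ) : intE N ⊆ RE 0 N 0 N := Finset.filter_subset _ _

theorem be_notMem (N k : ℤ) : be k ∉ intE N := by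
  rcases le_or_gt 0 k with h | h
  · rw [be_pos h, mem_intE_true]; omega
  · rw [be_neg h, mem_intE_false]; omega

theorem dint_inQ (N : ℤ) : InQ (dmp (intE N)) := by
  rintro ⟨x, y, _ | _⟩ h
  · rw [mem_dmp, dls_f, mem_intE_true] at h
    simp only
    omega
  · rw [mem_dmp, dls_t, mem_intE_false] at h
    simp only
    omega

theorem qb_dint {c : Vtx} {m : ℕ} {N : ℤ} (h1 : c.1 + m < N) (h2 : c.2 + m < N) :
    qb c m ⊆ dmp (intE N) := by
  rintro ⟨x, y, _ | _⟩ h
  · rw [qb, mem_RE_false] at h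
    rw [mem_dmp, dls_f, mem_intE_true]
    omega
  · rw [qb, mem_RE_true] at h
    rw [mem_dmp, dls_t, mem_intE_false]
    omega

/-- a dual path between boundary cells and two closed boundary edges separate the intervals -/
theorem sep {N a b c d p q : ℤ} {F : Finset Edg} (hp : p ≤ a - 1 ∧ -N ≤ p)
    (hq : b ≤ q ∧ q ≤ c - 1 ∧ q < N) (hab : a ≤ b) (hF : F ⊆ RE 0 N 0 N)
    (hbp : be p ∉ F) (hbq : be q ∉ F)
    (h : Reach (↑(dmp (intE N \ F)) : Set Edg) (bt (kap p)) (bt (kap q))) :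
    ¬ CNq a b c d F := by
  have h4 : DReach ((↑F : Set Edg)ᶜ ∩ ↑(RE 0 N 0 N)) (bt (kap p)) (bt (kap q)) := by
    rw [coe_dmp, reach_dl] at h
    refine h.mono ?_
    intro e he
    rw [Finset.mem_coe, Finset.mem_sdiff] at he
    exact ⟨fun h => he.2 (Finset.mem_coe.mp h), Finset.mem_coe.mpr (intE_sub N he.1)⟩
  have h5 : DReach ((↑F : Set Edg)ᶜ ∩ ↑(RE 0 N 0 N)) (ofc p) (bt (kap p)) :=
    DAdj.reach ⟨be p, ⟨fun h => hbp (Finset.mem_coe.mp h),
      Finset.mem_coe.mpr (be_mem (by omega) (by omega))⟩, Or.inl (be_faces p)⟩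
  have h6 : DReach ((↑F : Set Edg)ᶜ ∩ ↑(RE 0 N 0 N)) (bt (kap q)) (ofc q) :=
    DReach.symm (DAdj.reach ⟨be q, ⟨fun h => hbq (Finset.mem_coe.mp h),
      Finset.mem_coe.mpr (be_mem (by omega) (by omega))⟩, Or.inl (be_faces q)⟩)
  rintro ⟨x, y, hx, hy, hxy⟩
  refine no_quad (p := p) (q := q) (u := x) (v := y) (by omega) (by omega)
    (h5.trans (h4.trans h6)) (hxy.mono ?_)
  intro e he
  exact ⟨he, Finset.mem_coe.mpr (hF (Finset.mem_coe.mp he))⟩

theorem pr_edge_le (S : Finset Edg) (e : Edg) : Pr P S (fun F => e ∈ F) ≤ 1 / 2 := by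
  by_cases he : e ∈ S
  · exact (pr_edge he).le
  · have h : Pr P S (fun F => e ∈ F) = Pr P S (fun _ => False) :=
      Pr_congr (fun F hF => ⟨fun h => he (hF h), fun h => h.elim⟩)
    rw [h]
    have h2 : Pr P S (fun _ => False) = 0 := by
      have h3 := Pr_not (p := P) S (fun _ => True)
      rw [Pr_true (p := P) S (A := fun _ => True) (fun _ _ => trivial)] at h3
      simpa using h3
    rw [h2]
    norm_num

/-- two edges are closed -/
theorem quarter (S : Finset Edg) (e1 e2 : Edg) :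
    1 / 4 ≤ Pr P S (fun F => e1 ∉ F ∧ e2 ∉ F) := by
  have hi : ∀ e : Edg, IncrE S (fun F => e ∈ F) := fun e F G h _ h2 => h h2
  have h1 := Pr_harris_decr okP (hi e1) (B := fun F => e2 ∉ F)
    (by intro F G h h' h2 h3; exact h2 (fun h4 => h3 (h h4)))
  have h2 := pr_edge_le S e1
  have h3 := pr_edge_le S e2
  have h4 := Pr_not (p := P) S (fun F => e2 ∈ F)
  have h5 : Pr P S (fun F => e2 ∉ F) = Pr P S (fun F => e1 ∈ F ∧ e2 ∉ F) +
      Pr P S (fun F => e1 ∉ F ∧ e2 ∉ F) := by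
    unfold Pr
    rw [← Ex_add]
    apply Ex_congr
    intro F _
    rw [ind_and, ind_and, ind_not, ind_not]
    ring
  have h6 : (1 : ℝ) / 2 ≤ Pr P S (fun F => e2 ∉ F) := by
    rw [h4]; linarith
  nlinarith

/-- finite Fubini -/
theorem fubini2 {S D : Finset Edg} (hDS : D ⊆ S) (A G : Finset Edg → Prop)
    (h : ∀ A', A' ⊆ D → A A' → ∃ e1 e2 : Edg, ∀ B, B ⊆ S \ D → e1 ∉ B → e2 ∉ B → G (A' ∪ B)) :
    1 / 4 * Pr P D A ≤ Pr P S G := by
  have hS : S = D ∪ (S \ D) := (Finset.union_sdiff_of_subset hDS).symm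
  have hd : Disjoint D (S \ D) := Finset.disjoint_sdiff
  have h1 : Pr P S G = Ex P D (fun A' => Pr P (S \ D) (fun B => G (A' ∪ B))) := by
    conv_lhs => rw [hS]
    unfold Pr
    rw [Ex_union hd]
  rw [h1]
  unfold Pr
  rw [← Ex_mul_left]
  apply Ex_mono okP
  intro A' hA'
  by_cases hA : A A'
  · rw [ind_of hA, mul_one]
    obtain ⟨e1, e2, he⟩ := h A' hA' hA
    refine (quarter (S \ D) e1 e2).trans ?_
    exact Pr_mono okP (fun B hB hh => he B hB hh.1 hh.2)
  · rw [ind_not_of hA, mul_zero]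
    exact Pr_nonneg okP (S \ D) (fun B => G (A' ∪ B))

/-- the dual crossing gives the lower bound -/
theorem compl_ge {N a b c d m : ℤ} (hab : a ≤ b) (hbc : b < c) (hm : m ≤ a - 1) (hmN : -N ≤ m)
    (hc : c ≤ N) :
    1 / 4 * Pr P (dmp (intE N)) (CNq (kap m) (kap (a - 1)) (kap b) (kap (c - 1))) ≤
      Pr P (RE 0 N 0 N) (fun F => ¬ CNq a b c d F) := by
  rw [← pr_dual]
  apply fubini2 (intE_sub N)
  rintro A' hA' ⟨x, y, hx, hy, hxy⟩
  obtain ⟨p, hp1, hp2⟩ := kap_surj hm hx.1 hx.2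
  obtain ⟨q, hq1, hq2⟩ := kap_surj (by omega : b ≤ c - 1) hy.1 hy.2
  refine ⟨be p, be q, fun B hB h1 h2 => ?_⟩
  have hB2 : B ⊆ RE 0 N 0 N := hB.trans Finset.sdiff_subset
  apply sep (p := p) (q := q) (N := N) ⟨hp1.2, by omega⟩ ⟨hq1.1, by omega, by omega⟩ hab
    (Finset.union_subset (hA'.trans (intE_sub N)) hB2)
  · rw [Finset.mem_union]
    rintro (h | h)
    · exact be_notMem N p (hA' h)
    · exact h1 h
  · rw [Finset.mem_union]
    rintro (h | h)
    · exact be_notMem N q (hA' h)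
    · exact h2 h
  · rw [hp2, hq2]
    refine hxy.mono ?_
    have : dmp (intE N \ A') ⊆ dmp (intE N \ (A' ∪ B)) := by
      intro e he
      rw [mem_dmp, Finset.mem_sdiff] at he ⊢
      refine ⟨he.1, fun h => ?_⟩
      rcases Finset.mem_union.mp h with h | h
      · exact he.2 h
      · exact (Finset.mem_sdiff.mp (hB h)).2 he.1
    exact_mod_cast this

theorem qf_cmp {t u : ℤ} {s r s' g' : ℝ} (hs : 1 ≤ s) (hr : 1 ≤ r)
    (hs' : 1 ≤ s') (hg' : 0 < g') (hsg : s ≤ 2 * s') (hgr : g' ≤ r) (htu : |(t : ℝ) - u| ≤ 1) :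
    qf t s r ≤ 32 * qf u s' g' := by
  have p1 := Mf_pos t (n := s) (by linarith)
  have p2 := Mf_pos t (n := r) (by linarith)
  have p3 := Mf_pos u (n := s') (by linarith)
  have p4 := Mf_pos u (n := g') (by linarith)
  have hut : |(u : ℝ) - t| ≤ 1 := by rw [abs_sub_comm]; exact htu
  have h1 : Mf t s ≤ 8 * Mf u s' := by
    calc Mf t s ≤ 2 * Mf u s := Mf_shift (by linarith) (htu.trans hs)
      _ ≤ 2 * Mf u (2 * s') := by
          have := Mf_mono u (m := s) (n := 2 * s') (by linarith) hsg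
          linarith
      _ ≤ 2 * (2 ^ 2 * Mf u s') := by
          have := Mf_scale u (n := s') (k := 2) (by linarith) (by norm_num)
          linarith
      _ = _ := by ring
  have h2 : Mf u g' ≤ 2 * Mf t r := by
    calc Mf u g' ≤ Mf u r := Mf_mono u hg'.le hgr
      _ ≤ 2 * Mf t r := Mf_shift (by linarith) (hut.trans hr)
  unfold qf
  rw [mul_min_of_nonneg _ _ (by norm_num : (0 : ℝ) ≤ 32)]
  apply le_min
  · exact (min_le_left _ _).trans (by norm_num)
  · refine (min_le_right _ _).trans ?_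
    rw [mul_div_assoc', div_le_div_iff₀ p2 p4]
    have h3 : Mf t s * Mf u g' ≤ (8 * Mf u s') * (2 * Mf t r) :=
      mul_le_mul h1 h2 p4.le (by positivity)
    nlinarith [mul_pos p3 p2]

/-- **lower bound for the probability of no connection**, left version -/
theorem compl_low (hA : ArS) : ∃ c : ℝ, 0 < c ∧ ∀ (a b c' d : ℤ) (r g : ℕ), 1 ≤ r → 1 ≤ g →
    (r : ℤ) = b - a + 1 → (g : ℤ) = c' - b → ∀ N : ℤ, |a| + |c'| + 60 * r + 60 * g + 10 ≤ N →
    c * (qf b g r) ^ ((1 : ℝ) / 3) ≤ Pr P (RE 0 N 0 N) (fun F => ¬ CNq a b c' d F) := by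
  obtain ⟨κ, hκ, hL⟩ := low_exp hA
  refine ⟨1 / 4 * min 1 (κ * (1 / 1024)), by positivity, ?_⟩
  intro a b c' d r g hr hg hrr hgg N hN
  have ha1 := le_abs_self a
  have ha2 := neg_abs_le a
  have hc1 := le_abs_self c'
  have hc2 := neg_abs_le c'
  have hr1 : (1 : ℝ) ≤ r := by exact_mod_cast hr
  have hg1 : (1 : ℝ) ≤ g := by exact_mod_cast hg
  have hq0 := qf_pos b (r := (g : ℝ)) (g := (r : ℝ)) (by linarith) (by linarith)
  have hq1 : qf b (g : ℝ) r ≤ 1 := min_le_left _ _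
  refine le_trans ?_ (compl_ge (N := N) (a := a) (b := b) (c := c') (d := d) (m := a - r)
    (by omega) (by omega) (by omega) (by omega) (by omega))
  rw [mul_assoc]
  apply mul_le_mul_of_nonneg_left _ (by norm_num)
  have hqr1 : qf b (g : ℝ) r ^ ((1 : ℝ) / 3) ≤ 1 := Real.rpow_le_one hq0.le hq1 (by norm_num)
  have hqr0 : 0 ≤ qf b (g : ℝ) r ^ ((1 : ℝ) / 3) := Real.rpow_nonneg hq0.le _
  have k1 : kap (a - 1) ≤ kap b := kap_mono (by omega)
  rcases eq_or_lt_of_le k1 with hk | hk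
  · -- the isolated corner
    have h1 : Pr P (dmp (intE N)) (CNq (kap (a - r)) (kap (a - 1)) (kap b) (kap (c' - 1))) = 1 := by
      apply Pr_true
      intro F _
      exact ⟨kap (a - 1), kap b, ⟨kap_mono (by omega), le_rfl⟩, ⟨le_rfl, kap_mono (by omega)⟩,
        by rw [hk]; exact Reach.refl _ _⟩
    rw [h1]
    have : min 1 (κ * (1 / 1024)) ≤ 1 := min_le_left _ _
    nlinarith
  · obtain ⟨r', hr'⟩ : ∃ r' : ℕ, (r' : ℤ) = kap (a - 1) - kap (a - r) + 1 :=
      ⟨(kap (a - 1) - kap (a - r) + 1).toNat, by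
        have : kap (a - r) ≤ kap (a - 1) := kap_mono (by omega)
        omega⟩
    obtain ⟨s', hs'⟩ : ∃ s' : ℕ, (s' : ℤ) = kap (c' - 1) - kap b + 1 :=
      ⟨(kap (c' - 1) - kap b + 1).toNat, by
        have : kap b ≤ kap (c' - 1) := kap_mono (by omega)
        omega⟩
    obtain ⟨g', hg'⟩ : ∃ g' : ℕ, (g' : ℤ) = kap b - kap (a - 1) :=
      ⟨(kap b - kap (a - 1)).toNat, by omega⟩
    have m1 : kap (a - r) ≤ kap (a - 1) := kap_mono (by omega)
    have m2 : kap b ≤ kap (c' - 1) := kap_mono (by omega)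
    have e1 : r ≤ 2 * r' := by
      unfold kap at hr'
      split_ifs at hr' <;> omega
    have e2 : g ≤ 2 * s' := by
      unfold kap at hs'
      split_ifs at hs' <;> omega
    have e3 : g' ≤ r := by
      unfold kap at hg'
      split_ifs at hg' <;> omega
    have e4 : s' ≤ g := by
      unfold kap at hs'
      split_ifs at hs' <;> omega
    have e5 : r' ≤ r := by
      unfold kap at hr'
      split_ifs at hr' <;> omega
    have e6 : |((kap b : ℤ) : ℝ) - b| ≤ 1 := by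
      unfold kap
      split_ifs
      · simp
      · push_cast
        rw [add_sub_cancel_left]
        norm_num
    have e7 : kap (a - 1) ≤ |a| + 1 ∧ -(|a| + 1) ≤ kap (a - 1) := by
      unfold kap
      split_ifs <;> omega
    have hbox : qb (bt (kap (a - 1))) (40 * g') ⊆ dmp (intE N) := by
      apply qb_dint <;> unfold bt <;> push_cast <;> omega
    have h1 := hL (kap (a - r)) (kap (a - 1)) (kap b) (kap (c' - 1)) r' s' g' (by omega)
      (by omega) (by omega) hr' hs' hg' (dmp (intE N)) (dint_inQ N) hbox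
    refine le_trans ?_ h1
    have f1 : (1 : ℝ) ≤ r' := by exact_mod_cast (by omega : 1 ≤ r')
    have f2 : (1 : ℝ) ≤ s' := by exact_mod_cast (by omega : 1 ≤ s')
    have f3 : (1 : ℝ) ≤ g' := by exact_mod_cast (by omega : 1 ≤ g')
    have f4 : (r : ℝ) ≤ 2 * r' := by exact_mod_cast e1
    have f5 : (g : ℝ) ≤ 2 * s' := by exact_mod_cast e2
    have f6 : (g' : ℝ) ≤ r := by exact_mod_cast e3
    have f7 : (s' : ℝ) ≤ g := by exact_mod_cast e4
    have f8 : (r' : ℝ) ≤ r := by exact_mod_cast e5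
    have q1 : qf b (g : ℝ) r ≤ 32 * qf (kap b) (s' : ℝ) g' :=
      qf_cmp hg1 hr1 f2 (by linarith) f5 f6 (by rw [abs_sub_comm]; exact e6)
    have q2 : qf (kap (a - 1)) (r : ℝ) r ≤ 32 * qf (kap (a - 1)) (r' : ℝ) g' :=
      qf_cmp hr1 hr1 f1 (by linarith) f4 f6 (by simp)
    have q3 : qf (kap (a - 1)) (r : ℝ) r = 1 := by
      unfold qf
      rw [div_self (Mf_pos _ (by linarith)).ne', min_self]
    rw [q3] at q2
    have p1 := qf_pos (kap b) (r := (s' : ℝ)) (g := (g' : ℝ)) (by linarith) (by linarith)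
    have p2 := qf_pos (kap (a - 1)) (r := (r' : ℝ)) (g := (g' : ℝ)) (by linarith) (by linarith)
    have q4 : 1 / 1024 * qf b (g : ℝ) r ≤
        qf (kap (a - 1)) (r' : ℝ) g' * qf (kap b) (s' : ℝ) g' := by
      have : (1 : ℝ) / 32 ≤ qf (kap (a - 1)) (r' : ℝ) g' := by linarith
      nlinarith [mul_le_mul this (by linarith : 1 / 32 * qf b (g : ℝ) r ≤
        qf (kap b) (s' : ℝ) g') (by positivity) p2.le]
    have q5 : (1 / 1024) * (qf b (g : ℝ) r) ^ ((1 : ℝ) / 3) ≤
        (qf (kap (a - 1)) (r' : ℝ) g' * qf (kap b) (s' : ℝ) g') ^ ((1 : ℝ) / 3) := by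
      calc (1 / 1024) * (qf b (g : ℝ) r) ^ ((1 : ℝ) / 3) ≤
          (1 / 1024 : ℝ) ^ ((1 : ℝ) / 3) * (qf b (g : ℝ) r) ^ ((1 : ℝ) / 3) := by
            apply mul_le_mul_of_nonneg_right _ hqr0
            calc (1 : ℝ) / 1024 = (1 / 1024 : ℝ) ^ (1 : ℝ) := (Real.rpow_one _).symm
              _ ≤ _ := Real.rpow_le_rpow_of_exponent_ge (by norm_num) (by norm_num)
                (by norm_num)
        _ = (1 / 1024 * qf b (g : ℝ) r) ^ ((1 : ℝ) / 3) :=
            (Real.mul_rpow (by norm_num) hq0.le).symm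
        _ ≤ _ := Real.rpow_le_rpow (by positivity) q4 (by norm_num)
    calc min 1 (κ * (1 / 1024)) * qf b (g : ℝ) r ^ ((1 : ℝ) / 3) ≤
        κ * (1 / 1024) * qf b (g : ℝ) r ^ ((1 : ℝ) / 3) :=
          mul_le_mul_of_nonneg_right (min_le_right _ _) hqr0
      _ = κ * ((1 / 1024) * qf b (g : ℝ) r ^ ((1 : ℝ) / 3)) := by ring
      _ ≤ _ := mul_le_mul_of_nonneg_left q5 hκ.le

end QC
end TH976
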