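import Pool.Agent.TH976.QC.Arc
import Pool.Agent.TH976.Exps

/-!
Explicit form of the bounds for the crossing probability.
-/

set_option autoImplicit false

namespace TH976
namespace QC
open Finset H974 Pool.Agent.H160R2.CV H362P
open Pool.Agent.H160R2.CV.Quad Pool.Agent.H389R2.CD

/-- the size of a boundary interval of length `n` at `t`, after `z ↦ z ^ 2` -/
noncomputable def Mf (t : ℤ) (n : ℝ) : ℝ := n * max |(t : ℝ)| n

theorem Mf_pos (t : ℤ) {n : ℝ} (hn : 0 < n) : 0 < Mf t n :=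
  mul_pos hn (lt_of_lt_of_le hn (le_max_right _ _))

theorem Mf_mono (t : ℤ) {m n : ℝ} (hm : 0 ≤ m) (h : m ≤ n) : Mf t m ≤ Mf t n := by
  unfold Mf
  exact mul_le_mul h (max_le_max le_rfl h) (hm.trans (le_max_right _ _)) (hm.trans h)

theorem Mf_scale (t : ℤ) {n k : ℝ} (hn : 0 ≤ n) (hk : 1 ≤ k) : Mf t (k * n) ≤ k ^ 2 * Mf t n := by
  have h0 : 0 ≤ max |(t : ℝ)| n := hn.trans (le_max_right _ _)
  have h1 : max |(t : ℝ)| (k * n) ≤ k * max |(t : ℝ)| n := by
    apply max_le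
    · calc |(t : ℝ)| ≤ max |(t : ℝ)| n := le_max_left _ _
        _ = 1 * max |(t : ℝ)| n := (one_mul _).symm
        _ ≤ _ := mul_le_mul_of_nonneg_right hk h0
    · exact mul_le_mul_of_nonneg_left (le_max_right _ _) (by linarith)
  unfold Mf
  calc k * n * max |(t : ℝ)| (k * n) ≤ k * n * (k * max |(t : ℝ)| n) :=
        mul_le_mul_of_nonneg_left h1 (by positivity)
    _ = _ := by ring

/-- moving the base point by at most `n` -/
theorem Mf_shift {s t : ℤ} {n : ℝ} (hn : 0 < n) (h1 : |(s : ℝ) - t| ≤ n) : Mf s n ≤ 2 * Mf t n := by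
  unfold Mf
  have h2 : |(s : ℝ)| ≤ |(t : ℝ)| + n := by
    calc |(s : ℝ)| = |(t : ℝ) + ((s : ℝ) - t)| := by congr 1; ring
      _ ≤ |(t : ℝ)| + |(s : ℝ) - t| := abs_add_le _ _
      _ ≤ _ := by linarith
  have h3 : max |(s : ℝ)| n ≤ 2 * max |(t : ℝ)| n := by
    have e1 := le_max_left |(t : ℝ)| n
    have e2 := le_max_right |(t : ℝ)| n
    apply max_le <;> linarith
  calc n * max |(s : ℝ)| n ≤ n * (2 * max |(t : ℝ)| n) := mul_le_mul_of_nonneg_left h3 hn.le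
    _ = _ := by ring

theorem E_bd {b n : ℝ} (hb : 0 < b) (hn : 1 ≤ n) :
    E 1 b n = (b / (n * max b n)) ^ ((1 : ℝ) / 3) := by
  have hn0 : 0 < n := by linarith
  unfold E
  have e1 : min 1 ((1 : ℝ) / n) = 1 / n := min_eq_right ((div_le_one hn0).mpr hn)
  rw [e1]
  have e2 : n ^ (-(5 / 48 : ℝ)) * (1 / n) ^ (11 / 48 : ℝ) = (1 / n) ^ ((1 : ℝ) / 3) := by
    rw [one_div n, Real.inv_rpow hn0.le, Real.inv_rpow hn0.le, ← Real.rpow_neg hn0.le,
      ← Real.rpow_neg hn0.le, ← Real.rpow_add hn0]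
    norm_num
  rw [e2]
  have e3 : b / (n * max b n) = (1 / n) * min 1 (b / n) := by
    rcases le_total b n with h | h
    · rw [max_eq_right h, min_eq_right ((div_le_one hn0).mpr h)]
      field_simp
    · rw [max_eq_left h, min_eq_left ((one_le_div hn0).mpr h)]
      field_simp
  rw [e3, Real.mul_rpow (by positivity) (by positivity)]

theorem bt_min (t : ℤ) : min ((bt t).1 : ℝ) ((bt t).2 : ℝ) + 1 = 1 := by
  have h : min (bt t).1 (bt t).2 = 0 := by unfold bt; simp only; omega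
  have h2 : min ((bt t).1 : ℝ) ((bt t).2 : ℝ) = ((min (bt t).1 (bt t).2 : ℤ) : ℝ) := by
    push_cast; rfl
  rw [h2, h]
  norm_num

theorem bt_max (t : ℤ) : max ((bt t).1 : ℝ) ((bt t).2 : ℝ) + 1 = |(t : ℝ)| + 1 := by
  have h : max (bt t).1 (bt t).2 = |t| := by
    unfold bt
    simp only
    rcases abs_cases t with ⟨h, _⟩ | ⟨h, _⟩ <;> omega
  have h2 : max ((bt t).1 : ℝ) ((bt t).2 : ℝ) = ((max (bt t).1 (bt t).2 : ℤ) : ℝ) := by
    push_cast; rfl
  rw [h2, h]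
  push_cast
  rfl

/-- ratios of one-arm probabilities at the boundary -/
theorem ratio_cmp (hA : ArS) : ∃ K : ℝ, ∀ (t : ℤ) (r n : ℕ), 1 ≤ r → 1 ≤ n →
    Cmp K (aq (bt t) n / aq (bt t) r) ((Mf t r / Mf t n) ^ ((1 : ℝ) / 3)) := by
  obtain ⟨K, h⟩ := aq_cmp hA
  refine ⟨K * K * (2 * 2), fun t r n hr hn => ?_⟩
  have hr1 : (1 : ℝ) ≤ r := by exact_mod_cast hr
  have hn1 : (1 : ℝ) ≤ n := by exact_mod_cast hn
  have h1 := h (bt t) (bt_in t) n hn
  have h2 := h (bt t) (bt_in t) r hr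
  rw [bt_min, bt_max, E_bd (by positivity) hn1] at h1
  rw [bt_min, bt_max, E_bd (by positivity) hr1] at h2
  have h3 := h1.div h2
  have ht : 0 < |(t : ℝ)| + 1 := by positivity
  have key : ∀ m : ℝ, 1 ≤ m → Cmp 2 (m * max (|(t : ℝ)| + 1) m) (Mf t m) := by
    intro m hm
    have hm0 : 0 < m := by linarith
    have e1 := le_max_left |(t : ℝ)| m
    have e2 := le_max_right |(t : ℝ)| m
    have hM := Mf_pos t hm0
    refine (Cmp.of_le hM ?_ (by norm_num) ?_).symm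
    · unfold Mf
      exact mul_le_mul_of_nonneg_left (max_le_max (by linarith) le_rfl) hm0.le
    · unfold Mf
      rw [mul_left_comm]
      exact mul_le_mul_of_nonneg_left (max_le (by linarith) (by linarith)) hm0.le
  have h4 := ((key r hr1).div (key n hn1)).rpow (a := (1 : ℝ) / 3) (by norm_num) (by norm_num)
  refine h3.trans (h4.congr ?_ rfl)
  have hr0 : (0 : ℝ) < r := by linarith
  have hn0 : (0 : ℝ) < n := by linarith
  have p1 : 0 < max (|(t : ℝ)| + 1) (n : ℝ) := lt_of_lt_of_le ht (le_max_left _ _)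
  have p2 : 0 < max (|(t : ℝ)| + 1) (r : ℝ) := lt_of_lt_of_le ht (le_max_left _ _)
  rw [← Real.div_rpow (by positivity) (by positivity)]
  congr 1
  field_simp

/-- the relative size of the interval of length `r` for a gap of length `g` -/
noncomputable def qf (t : ℤ) (r g : ℝ) : ℝ := min 1 (Mf t r / Mf t g)

theorem qf_pos (t : ℤ) {r g : ℝ} (hr : 0 < r) (hg : 0 < g) : 0 < qf t r g :=
  lt_min one_pos (div_pos (Mf_pos t hr) (Mf_pos t hg))

theorem qf_min (t : ℤ) {r g : ℝ} (hr : 0 < r) (hg : 0 < g) :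
    Mf t (min r g) / Mf t g = qf t r g := by
  unfold qf
  rcases le_total r g with h | h
  · rw [min_eq_left h, min_eq_right]
    exact (div_le_one (Mf_pos t hg)).mpr (Mf_mono t hr.le h)
  · rw [min_eq_right h, div_self (Mf_pos t hg).ne', min_eq_left]
    exact (one_le_div (Mf_pos t hg)).mpr (Mf_mono t hg.le h)

/-- lower bound, explicit -/
theorem low_exp (hA : ArS) : ∃ c : ℝ, 0 < c ∧ ∀ (a b c' d : ℤ) (r s g : ℕ), 1 ≤ r → 1 ≤ s →
    1 ≤ g → (r : ℤ) = b - a + 1 → (s : ℤ) = d - c' + 1 → (g : ℤ) = c' - b →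
    ∀ S : Finset Edg, InQ S → qb (bt b) (40 * g) ⊆ S →
    c * (qf b r g * qf c' s g) ^ ((1 : ℝ) / 3) ≤ Pr P S (CNq a b c' d) := by
  obtain ⟨κ, hκ, hL⟩ := CN_low
  obtain ⟨K, hK⟩ := ratio_cmp hA
  have hK1 : 1 ≤ K := (hK 0 1 1 le_rfl le_rfl).hk
  refine ⟨κ * (K⁻¹ * K⁻¹), by positivity, ?_⟩
  intro a b c' d r s g hr hs hg hrr hss hgg S hSQ hS
  have hg1 : (0 : ℝ) < g := by exact_mod_cast hg
  have hr1 : (0 : ℝ) < r := by exact_mod_cast hr
  have hs1 : (0 : ℝ) < s := by exact_mod_cast hs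
  obtain ⟨r', hr'⟩ : ∃ r', r' = min r g := ⟨_, rfl⟩
  obtain ⟨s', hs'⟩ : ∃ s', s' = min s g := ⟨_, rfl⟩
  have h1 := hL (b - r' + 1) b c' (c' + s' - 1) r' s' g (by omega) (by omega) hg (by omega)
    (by omega) hgg (by omega) (by omega) S hSQ hS
  have h2 : Pr P S (CNq (b - r' + 1) b c' (c' + s' - 1)) ≤ Pr P S (CNq a b c' d) :=
    Pr_mono okP (fun F _ h => CNq_mono (by omega) le_rfl le_rfl (by omega) h)
  refine le_trans ?_ (h1.trans h2)
  rw [mul_assoc]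
  apply mul_le_mul_of_nonneg_left _ hκ.le
  have e1 : (r' : ℝ) = min (r : ℝ) g := by rw [hr']; push_cast; rfl
  have e2 : (s' : ℝ) = min (s : ℝ) g := by rw [hs']; push_cast; rfl
  have g1 := hK b r' g (by omega) hg
  have g2 := hK c' s' g (by omega) hg
  rw [e1, qf_min b hr1 hg1] at g1
  rw [e2, qf_min c' hs1 hg1] at g2
  rw [Real.mul_rpow (qf_pos b hr1 hg1).le (qf_pos c' hs1 hg1).le]
  have l1 : K⁻¹ * qf b r g ^ ((1 : ℝ) / 3) ≤ aq (bt b) g / aq (bt b) r' := by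
    rw [inv_mul_eq_div, div_le_iff₀ (by linarith), mul_comm]
    exact g1.r
  have l2 : K⁻¹ * qf c' s g ^ ((1 : ℝ) / 3) ≤ aq (bt c') g / aq (bt c') s' := by
    rw [inv_mul_eq_div, div_le_iff₀ (by linarith), mul_comm]
    exact g2.r
  calc K⁻¹ * K⁻¹ * (qf b r g ^ ((1 : ℝ) / 3) * qf c' s g ^ ((1 : ℝ) / 3)) =
      (K⁻¹ * qf b r g ^ ((1 : ℝ) / 3)) * (K⁻¹ * qf c' s g ^ ((1 : ℝ) / 3)) := by ring
    _ ≤ _ := mul_le_mul l1 l2 (by
        have := qf_pos c' hs1 hg1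
        positivity) g1.hx.le

/-- the half of the upper bound -/
theorem up_half (hA : ArS) : ∃ C : ℝ, 1 ≤ C ∧ ∀ (t : ℤ) (r g : ℕ), 1 ≤ r → 1 ≤ g →
    (g / 8 < r → 1 ≤ C * (qf t r g) ^ ((1 : ℝ) / 3)) ∧
    (r ≤ g / 8 → bq (bt t) r (g / 8) ≤ C * (qf t r g) ^ ((1 : ℝ) / 3)) := by
  obtain ⟨K, hK⟩ := ratio_cmp hA
  have hK1 : 1 ≤ K := (hK 0 1 1 le_rfl le_rfl).hk
  have k40 := k4_pos
  have k41 := k4_le
  have kd0 := kd_pos
  have kd1 := kd_le
  have hkk : 1 ≤ (k4 * kd)⁻¹ := by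
    rw [inv_eq_one_div, le_div_iff₀ (by positivity), one_mul]
    calc k4 * kd ≤ 1 * 1 := mul_le_mul k41 kd1 kd0.le zero_le_one
      _ = 1 := by norm_num
  refine ⟨(k4 * kd)⁻¹ * K * 256, by nlinarith, ?_⟩
  intro t r g hr hg
  have hr1 : (1 : ℝ) ≤ r := by exact_mod_cast hr
  have hg1 : (1 : ℝ) ≤ g := by exact_mod_cast hg
  have hq := qf_pos t (r := r) (g := g) (by linarith) (by linarith)
  have hkK : 1 ≤ (k4 * kd)⁻¹ * K := Cmp.one_le_mul' hkk hK1
  constructor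
  · intro h
    have h1 : (g : ℝ) ≤ 8 * r := by exact_mod_cast (by omega : g ≤ 8 * r)
    have h2 : Mf t g ≤ 64 * Mf t r := by
      calc Mf t g ≤ Mf t (8 * r) := Mf_mono t (by linarith) h1
        _ ≤ 8 ^ 2 * Mf t r := Mf_scale t (by linarith) (by norm_num)
        _ = _ := by norm_num
    have h3 : 1 / 64 ≤ qf t r g := by
      unfold qf
      refine le_min (by norm_num) ?_
      rw [div_le_div_iff₀ (by norm_num) (Mf_pos t (by linarith))]
      linarith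
    have h4 : (1 : ℝ) / 64 ≤ (qf t r g) ^ ((1 : ℝ) / 3) := by
      have h5 : qf t r g ≤ 1 := min_le_left _ _
      calc (1 : ℝ) / 64 ≤ qf t r g := h3
        _ = (qf t r g) ^ (1 : ℝ) := (Real.rpow_one _).symm
        _ ≤ _ := Real.rpow_le_rpow_of_exponent_ge hq h5 (by norm_num)
    nlinarith
  · intro h
    obtain ⟨n, hn⟩ : ∃ n, n = g / 8 := ⟨_, rfl⟩
    rw [← hn] at h ⊢
    have hn1 : 1 ≤ n := by omega
    have hn1' : (1 : ℝ) ≤ n := by exact_mod_cast hn1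
    have h1 := bq_up (bt_in t) hr h
    have h2 := (hK t r n hr hn1).l
    have h3 : Mf t r / Mf t n ≤ 256 * qf t r g := by
      have h4 : (g : ℝ) ≤ 16 * n := by exact_mod_cast (by omega : g ≤ 16 * n)
      have h5 : Mf t g ≤ 256 * Mf t n := by
        calc Mf t g ≤ Mf t (16 * n) := Mf_mono t (by linarith) h4
          _ ≤ 16 ^ 2 * Mf t n := Mf_scale t (by linarith) (by norm_num)
          _ = _ := by norm_num
      have h6 : (r : ℝ) ≤ g := by exact_mod_cast (by omega : r ≤ g)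
      have h7 := Mf_pos t (n := (r : ℝ)) (by linarith)
      have h8 := Mf_pos t (n := (n : ℝ)) (by linarith)
      have h9 := Mf_pos t (n := (g : ℝ)) (by linarith)
      have e : qf t r g = Mf t r / Mf t g := by
        unfold qf
        exact min_eq_right ((div_le_one h9).mpr (Mf_mono t (by linarith) h6))
      rw [e, mul_div_assoc', div_le_div_iff₀ h8 h9]
      nlinarith
    have h10 : (Mf t r / Mf t n) ^ ((1 : ℝ) / 3) ≤ 256 * (qf t r g) ^ ((1 : ℝ) / 3) := by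
      have h7 := Mf_pos t (n := (r : ℝ)) (by linarith)
      have h8 := Mf_pos t (n := (n : ℝ)) (by linarith)
      calc (Mf t r / Mf t n) ^ ((1 : ℝ) / 3) ≤ (256 * qf t r g) ^ ((1 : ℝ) / 3) :=
            Real.rpow_le_rpow (by positivity) h3 (by norm_num)
        _ = (256 : ℝ) ^ ((1 : ℝ) / 3) * (qf t r g) ^ ((1 : ℝ) / 3) :=
            Real.mul_rpow (by norm_num) hq.le
        _ ≤ 256 * (qf t r g) ^ ((1 : ℝ) / 3) := by
            apply mul_le_mul_of_nonneg_right _ (Real.rpow_nonneg hq.le _)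
            calc (256 : ℝ) ^ ((1 : ℝ) / 3) ≤ (256 : ℝ) ^ (1 : ℝ) :=
                  Real.rpow_le_rpow_of_exponent_le (by norm_num) (by norm_num)
              _ = 256 := Real.rpow_one _
    calc bq (bt t) r n ≤ (k4 * kd)⁻¹ * (aq (bt t) n / aq (bt t) r) := h1
      _ ≤ (k4 * kd)⁻¹ * (K * (Mf t r / Mf t n) ^ ((1 : ℝ) / 3)) :=
          mul_le_mul_of_nonneg_left h2 (by positivity)
      _ ≤ (k4 * kd)⁻¹ * (K * (256 * (qf t r g) ^ ((1 : ℝ) / 3))) :=
          mul_le_mul_of_nonneg_left (mul_le_mul_of_nonneg_left h10 (by linarith)) (by positivity)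
      _ = _ := by ring

/-- upper bound, explicit -/
theorem up_exp (hA : ArS) : ∃ C : ℝ, 0 < C ∧ ∀ (a b c' d : ℤ) (r s g : ℕ), 1 ≤ r → 1 ≤ s →
    1 ≤ g → (r : ℤ) = b - a + 1 → (s : ℤ) = d - c' + 1 → (g : ℤ) = c' - b →
    ∀ S : Finset Edg, InQ S →
    Pr P S (CNq a b c' d) ≤ C * (qf b r g * qf c' s g) ^ ((1 : ℝ) / 3) := by
  obtain ⟨C, hC, hU⟩ := up_half hA
  refine ⟨C * C, by positivity, ?_⟩
  intro a b c' d r s g hr hs hg hrr hss hgg S hSQ
  have hg1 : (0 : ℝ) < g := by exact_mod_cast hg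
  have hr1 : (0 : ℝ) < r := by exact_mod_cast hr
  have hs1 : (0 : ℝ) < s := by exact_mod_cast hs
  obtain ⟨b1, b2⟩ := hU b r g hr hg
  obtain ⟨c1, c2⟩ := hU c' s g hs hg
  rw [Real.mul_rpow (qf_pos b hr1 hg1).le (qf_pos c' hs1 hg1).le]
  have e : C * C * (qf b r g ^ ((1 : ℝ) / 3) * qf c' s g ^ ((1 : ℝ) / 3)) =
      (C * qf b r g ^ ((1 : ℝ) / 3)) * (C * qf c' s g ^ ((1 : ℝ) / 3)) := by ring
  rw [e]
  have n1 : 0 ≤ C * qf b r g ^ ((1 : ℝ) / 3) :=
    mul_nonneg (by linarith) (Real.rpow_nonneg (qf_pos b hr1 hg1).le _)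
  have n2 : 0 ≤ C * qf c' s g ^ ((1 : ℝ) / 3) :=
    mul_nonneg (by linarith) (Real.rpow_nonneg (qf_pos c' hs1 hg1).le _)
  rcases Nat.lt_or_ge (g / 8) r with h1 | h1
  · have u1 := b1 h1
    rcases Nat.lt_or_ge (g / 8) s with h2 | h2
    · have u2 := c1 h2
      have h3 : Pr P S (CNq a b c' d) ≤ 1 := Pr_le_one okP _ _
      nlinarith
    · have u2 := c2 h2
      have h3 := up_right (a := a) (b := b) (c := c') (d := d) (s := s) (n := g / 8) hss.ge h2
        (by omega) hSQ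
      nlinarith
  · have u1 := b2 h1
    rcases Nat.lt_or_ge (g / 8) s with h2 | h2
    · have u2 := c1 h2
      have h3 := up_left (a := a) (b := b) (c := c') (d := d) (r := r) (n := g / 8) hrr.ge h1
        (by omega) hSQ
      nlinarith
    · have u2 := c2 h2
      have h3 := up_two (a := a) (b := b) (c := c') (d := d) (r := r) (s := s) (n := g / 8)
        hrr.ge hss.ge h1 h2 (by omega) hSQ
      exact h3.trans (mul_le_mul u1 u2 (bq_nonneg _ _ _) n1)

end QC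
end TH976
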