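import Pool.Agent.TH976.QC.Sum
import Pool.Agent.H731R3.Cardy.Final

/-!
The cross-ratio of the squares.
-/

set_option autoImplicit false

namespace TH976
namespace QC
open Finset H974 Pool.Agent.H160R2.CV H362P
open Pool.Agent.H160R2.CV.Quad Pool.Agent.H389R2.CD

/-- the map `z ↦ z ^ 2` on the boundary of the quadrant -/
noncomputable def sq (t : ℝ) : ℝ := t * |t|

theorem sq_neg (t : ℝ) : sq (-t) = -sq t := by
  unfold sq
  rw [abs_neg]
  ring

theorem sq_add (t : ℤ) {n : ℝ} (hn : 0 < n) :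
    1 / 2 * Mf t n ≤ sq (t + n) - sq t ∧ sq (t + n) - sq t ≤ 3 * Mf t n := by
  unfold sq Mf
  rcases le_total 0 (t : ℝ) with h | h
  · rw [abs_of_nonneg h, abs_of_nonneg (by linarith : 0 ≤ (t : ℝ) + n)]
    rcases le_total (t : ℝ) n with h2 | h2
    · rw [max_eq_right h2]
      constructor <;> nlinarith
    · rw [max_eq_left h2]
      constructor <;> nlinarith
  · rw [abs_of_nonpos h]
    rcases le_total ((t : ℝ) + n) 0 with h2 | h2
    · rw [abs_of_nonpos h2, max_eq_left (by linarith : n ≤ -(t : ℝ))]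
      constructor <;> nlinarith
    · rw [abs_of_nonneg h2, max_eq_right (by linarith : -(t : ℝ) ≤ n)]
      constructor
      · nlinarith [sq_nonneg ((t : ℝ) + (t + n))]
      · nlinarith

theorem sq_sub (t : ℤ) {n : ℝ} (hn : 0 < n) :
    1 / 2 * Mf t n ≤ sq t - sq (t - n) ∧ sq t - sq (t - n) ≤ 3 * Mf t n := by
  have h := sq_add (-t) hn
  rw [Mf_neg] at h
  have e1 : sq (((-t : ℤ) : ℝ) + n) = -sq (t - n) := by
    rw [← sq_neg]
    congr 1
    push_cast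
    ring
  have e2 : sq ((-t : ℤ) : ℝ) = -sq t := by
    rw [← sq_neg]
    push_cast
    rfl
  rw [e1, e2] at h
  constructor <;> linarith [h.1, h.2]

/-- `x / (x + y)` against `min 1 (A / B)` -/
theorem frac_cmp {x y A B : ℝ} (hx : 0 < x) (hy : 0 < y) (hA : 0 < A) (hB : 0 < B)
    (h1 : 1 / 2 * A ≤ x) (h2 : x ≤ 3 * A) (h3 : 1 / 2 * B ≤ y) (h4 : y ≤ 3 * B) :
    x / (x + y) ≤ 6 * min 1 (A / B) ∧ min 1 (A / B) ≤ 12 * (x / (x + y)) := by
  have hxy : 0 < x + y := by linarith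
  constructor
  · rw [mul_min_of_nonneg _ _ (by norm_num : (0 : ℝ) ≤ 6)]
    apply le_min
    · rw [div_le_iff₀ hxy]; linarith
    · rw [mul_div_assoc', div_le_div_iff₀ hxy hB]
      nlinarith [mul_pos hA hx, mul_pos hA hB]
  · rcases le_total A B with h | h
    · rw [min_eq_right ((div_le_one hB).mpr h), mul_div_assoc', div_le_div_iff₀ hB hxy]
      nlinarith [mul_pos hA hB]
    · refine (min_le_left _ _).trans ?_
      rw [mul_div_assoc', le_div_iff₀ hxy]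
      nlinarith

/-- the cross-ratio of the squares of the ends -/
noncomputable def cr (a b c d : ℤ) : ℝ :=
  H731C.crossRatio (sq ((a : ℝ) - 1)) (sq b) (sq c) (sq ((d : ℝ) + 1))

theorem cr_bounds {a b c d : ℤ} {r s g : ℕ} (hr : 1 ≤ r) (hs : 1 ≤ s) (hg : 1 ≤ g)
    (hrr : (r : ℤ) = b - a + 1) (hss : (s : ℤ) = d - c + 1) (hgg : (g : ℤ) = c - b) :
    0 < cr a b c d ∧ cr a b c d < 1 ∧
    cr a b c d ≤ 36 * (qf b r g * qf c s g) ∧ qf b r g * qf c s g ≤ 144 * cr a b c d ∧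
    (1 - cr a b c d ≤ 12 * qf b g r ∨ 1 - cr a b c d ≤ 12 * qf c g s) ∧
    qf b g r ≤ 12 * (1 - cr a b c d) ∧ qf c g s ≤ 12 * (1 - cr a b c d) := by
  have hr0 : (0 : ℝ) < r := by exact_mod_cast hr
  have hs0 : (0 : ℝ) < s := by exact_mod_cast hs
  have hg0 : (0 : ℝ) < g := by exact_mod_cast hg
  have er : (r : ℝ) = b - a + 1 := by exact_mod_cast hrr
  have es : (s : ℝ) = d - c + 1 := by exact_mod_cast hss
  have eg : (g : ℝ) = c - b := by exact_mod_cast hgg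
  obtain ⟨X, hX⟩ : ∃ X : ℝ, X = sq b - sq ((a : ℝ) - 1) := ⟨_, rfl⟩
  obtain ⟨Y, hY⟩ : ∃ Y : ℝ, Y = sq c - sq b := ⟨_, rfl⟩
  obtain ⟨Z, hZ⟩ : ∃ Z : ℝ, Z = sq ((d : ℝ) + 1) - sq c := ⟨_, rfl⟩
  have a1 : (a : ℝ) - 1 = b - r := by rw [er]; ring
  have a2 : (c : ℝ) = b + g := by rw [eg]; ring
  have a3 : (b : ℝ) = c - g := by rw [eg]; ring
  have a4 : (d : ℝ) + 1 = c + s := by rw [es]; ring
  have x1 := sq_sub b hr0
  rw [← a1, ← hX] at x1
  have y1 := sq_add b hg0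
  rw [← a2, ← hY] at y1
  have y2 := sq_sub c hg0
  rw [← a3, ← hY] at y2
  have z1 := sq_add c hs0
  rw [← a4, ← hZ] at z1
  have m1 := Mf_pos b hr0
  have m2 := Mf_pos b hg0
  have m3 := Mf_pos c hg0
  have m4 := Mf_pos c hs0
  have X0 : 0 < X := by linarith [x1.1]
  have Y0 : 0 < Y := by linarith [y1.1]
  have Z0 : 0 < Z := by linarith [z1.1]
  have f1 := frac_cmp X0 Y0 m1 m2 x1.1 x1.2 y1.1 y1.2
  have f2 := frac_cmp Z0 Y0 m4 m3 z1.1 z1.2 y2.1 y2.2
  have f3 := frac_cmp Y0 X0 m2 m1 y1.1 y1.2 x1.1 x1.2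
  have f4 := frac_cmp Y0 Z0 m3 m4 y2.1 y2.2 z1.1 z1.2
  have hcr : cr a b c d = (X / (X + Y)) * (Z / (Z + Y)) := by
    unfold cr H731C.crossRatio
    have e1 : sq (c : ℝ) - sq ((a : ℝ) - 1) = X + Y := by rw [hX, hY]; ring
    have e2 : sq ((d : ℝ) + 1) - sq (b : ℝ) = Z + Y := by rw [hZ, hY]; ring
    rw [e1, e2, ← hX, ← hZ, div_mul_div_comm]
  have hcr2 : 1 - cr a b c d = Y / (Y + X) + Y / (Y + Z) - Y / (Y + X) * (Y / (Y + Z)) := by
    rw [hcr]
    field_simp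
    ring
  have hXY : Y / (Y + X) = 1 - X / (X + Y) := by
    field_simp
    ring
  obtain ⟨s1, hs1⟩ : ∃ s1, s1 = Y / (Y + X) := ⟨_, rfl⟩
  obtain ⟨u1, hu1⟩ : ∃ u1, u1 = Y / (Y + Z) := ⟨_, rfl⟩
  rw [← hs1, ← hu1] at hcr2
  rw [← hs1] at f3
  rw [← hu1] at f4
  have s10 : 0 < s1 := by rw [hs1]; positivity
  have u10 : 0 < u1 := by rw [hu1]; positivity
  have s11 : s1 < 1 := by rw [hs1, div_lt_one (by positivity)]; linarith
  have u11 : u1 < 1 := by rw [hu1, div_lt_one (by positivity)]; linarith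
  have pX : 0 < X / (X + Y) := by positivity
  have pZ : 0 < Z / (Z + Y) := by positivity
  have q1 := qf_pos b hr0 hg0
  have q2 := qf_pos c hs0 hg0
  have hc0 : 0 < cr a b c d := by rw [hcr]; positivity
  have hc1 : 0 < 1 - cr a b c d := by rw [hcr2]; nlinarith
  refine ⟨hc0, by linarith, ?_, ?_, ?_, ?_, ?_⟩
  · rw [hcr]
    have := mul_le_mul f1.1 f2.1 pZ.le (by unfold qf at q1; positivity)
    unfold qf
    linarith
  · rw [hcr]
    have := mul_le_mul f1.2 f2.2 (by unfold qf at q2; exact q2.le) (by positivity)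
    unfold qf
    linarith
  · rw [hcr2]
    unfold qf
    rcases le_total s1 u1 with h | h
    · right
      nlinarith [f4.1, mul_pos s10 u10]
    · left
      nlinarith [f3.1, mul_pos s10 u10]
  · rw [hcr2]
    unfold qf
    nlinarith [f3.2, mul_pos s10 u10]
  · rw [hcr2]
    unfold qf
    nlinarith [f4.2, mul_pos s10 u10]

/-- comparison of the base points -/
theorem qf_base {b c : ℤ} {m g : ℝ} (hm : 0 < m) (hg : 0 < g) (hbc : |(b : ℝ) - c| ≤ g) :
    qf b g m ≤ 4 * qf c g m := by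
  have pm := Mf_pos b hm
  have pm' := Mf_pos c hm
  have hcb : |(c : ℝ) - b| ≤ g := by rw [abs_sub_comm]; exact hbc
  rcases le_total g m with h | h
  · have j1 : Mf b g ≤ 2 * Mf c g := Mf_shift hg hbc
    have j2 : Mf c m ≤ 2 * Mf b m := Mf_shift hm (hcb.trans h)
    unfold qf
    rw [mul_min_of_nonneg _ _ (by norm_num : (0 : ℝ) ≤ 4)]
    apply le_min
    · exact (min_le_left _ _).trans (by norm_num)
    · refine (min_le_right _ _).trans ?_
      rw [mul_div_assoc', div_le_div_iff₀ pm pm']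
      have := mul_le_mul j1 j2 pm'.le (mul_nonneg (by norm_num) (Mf_pos c hg).le)
      nlinarith
  · have j3 : qf c g m = 1 := by
      unfold qf
      exact min_eq_left ((one_le_div pm').mpr (Mf_mono c hm.le h))
    rw [j3]
    exact (min_le_left _ _).trans (by norm_num)

theorem rp_le {x y k : ℝ} (hx : 0 ≤ x) (hy : 0 ≤ y) (hk : 1 ≤ k) (h : x ≤ k * y) :
    x ^ ((1 : ℝ) / 3) ≤ k * y ^ ((1 : ℝ) / 3) := by
  calc x ^ ((1 : ℝ) / 3) ≤ (k * y) ^ ((1 : ℝ) / 3) := Real.rpow_le_rpow hx h (by norm_num)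
    _ = k ^ ((1 : ℝ) / 3) * y ^ ((1 : ℝ) / 3) := Real.mul_rpow (by linarith) hy
    _ ≤ k * y ^ ((1 : ℝ) / 3) := by
        apply mul_le_mul_of_nonneg_right _ (Real.rpow_nonneg hy _)
        calc k ^ ((1 : ℝ) / 3) ≤ k ^ (1 : ℝ) :=
              Real.rpow_le_rpow_of_exponent_le hk (by norm_num)
          _ = k := Real.rpow_one _

/-- **power bounds in a box** -/
theorem box_bounds (hA : ArS) : ∃ c C : ℝ, 0 < c ∧ 0 < C ∧ ∀ a b c' d : ℤ, a ≤ b → b < c' →
    c' ≤ d → 0 < cr a b c' d ∧ cr a b c' d < 1 ∧ ∃ N0 : ℤ, ∀ N : ℤ, N0 ≤ N →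
      c * (cr a b c' d) ^ ((1 : ℝ) / 3) ≤ Pr P (RE 0 N 0 N) (CNq a b c' d) ∧
      Pr P (RE 0 N 0 N) (CNq a b c' d) ≤ C * (cr a b c' d) ^ ((1 : ℝ) / 3) ∧
      c * (1 - cr a b c' d) ^ ((1 : ℝ) / 3) ≤ 1 - Pr P (RE 0 N 0 N) (CNq a b c' d) ∧
      1 - Pr P (RE 0 N 0 N) (CNq a b c' d) ≤ C * (1 - cr a b c' d) ^ ((1 : ℝ) / 3) := by
  obtain ⟨c1, hc1, H1⟩ := low_exp hA
  obtain ⟨C1, hC1, H2⟩ := up_exp hA
  obtain ⟨c2, hc2, H3⟩ := compl_low hA
  obtain ⟨c3, hc3, H4⟩ := compl_low' hA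
  obtain ⟨C2, hC2, H5⟩ := compl_up_exp hA
  have hC20 : 0 < C2 := by linarith
  refine ⟨min (c1 / 36) (min (c2 / 12) (c3 / 12)), max (C1 * 144) (C2 * 48),
    lt_min (by positivity) (lt_min (by positivity) (by positivity)),
    lt_max_of_lt_left (by positivity), ?_⟩
  intro a b c' d hab hbc hcd
  obtain ⟨r, hrr⟩ : ∃ r : ℕ, (r : ℤ) = b - a + 1 := ⟨(b - a + 1).toNat, by omega⟩
  obtain ⟨s, hss⟩ : ∃ s : ℕ, (s : ℤ) = d - c' + 1 := ⟨(d - c' + 1).toNat, by omega⟩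
  obtain ⟨g, hgg⟩ : ∃ g : ℕ, (g : ℤ) = c' - b := ⟨(c' - b).toNat, by omega⟩
  have hr : 1 ≤ r := by omega
  have hs : 1 ≤ s := by omega
  have hg : 1 ≤ g := by omega
  have hr0 : (0 : ℝ) < r := by exact_mod_cast hr
  have hs0 : (0 : ℝ) < s := by exact_mod_cast hs
  have hg0 : (0 : ℝ) < g := by exact_mod_cast hg
  obtain ⟨x0, x1, k1, k2, k3, k4, k5⟩ := cr_bounds hr hs hg hrr hss hgg
  refine ⟨x0, x1, |a| + |b| + |c'| + |d| + 60 * r + 60 * s + 60 * g + 10, ?_⟩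
  intro N hN
  have a0 := abs_nonneg a
  have b0 := abs_nonneg b
  have c0 := abs_nonneg c'
  have d0 := abs_nonneg d
  have b1 := le_abs_self b
  have b2 := neg_abs_le b
  have q1 := qf_pos b hr0 hg0
  have q2 := qf_pos c' hs0 hg0
  have q3 := qf_pos b hg0 hr0
  have q4 := qf_pos c' hg0 hs0
  have hbox : RE 0 N 0 N = RE 0 N 0 N := rfl
  have hIQ : InQ (RE 0 N 0 N) := by
    rintro ⟨x, y, _ | _⟩ h
    · rw [mem_RE_false] at h
      simp only
      omega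
    · rw [mem_RE_true] at h
      simp only
      omega
  have hqb : qb (bt b) (40 * g) ⊆ RE 0 N 0 N := by
    rintro ⟨x, y, _ | _⟩ h
    · unfold qb bt at h
      rw [mem_RE_false] at h ⊢
      push_cast at h
      omega
    · unfold qb bt at h
      rw [mem_RE_true] at h ⊢
      push_cast at h
      omega
  have g1 := H1 a b c' d r s g hr hs hg hrr hss hgg (RE 0 N 0 N) hIQ hqb
  have g2 := H2 a b c' d r s g hr hs hg hrr hss hgg (RE 0 N 0 N) hIQ
  have g3 := H3 a b c' d r g hr hg hrr hgg N (by omega)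
  have g4 := H4 a b c' d s g hs hg hss hgg N (by omega)
  have g5 := H5 a b c' d r s g (min r s) hr hs hg hrr hss hgg rfl N (by omega)
  have hnot : Pr P (RE 0 N 0 N) (fun F => ¬ CNq a b c' d F) =
      1 - Pr P (RE 0 N 0 N) (CNq a b c' d) := Pr_not _ _
  rw [hnot] at g3 g4 g5
  have p1 : 0 ≤ (cr a b c' d) ^ ((1 : ℝ) / 3) := Real.rpow_nonneg x0.le _
  have p2 : 0 ≤ (1 - cr a b c' d) ^ ((1 : ℝ) / 3) := Real.rpow_nonneg (by linarith) _
  refine ⟨?_, ?_, ?_, ?_⟩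
  · have l1 := rp_le x0.le (by positivity) (by norm_num) k1
    calc _ ≤ c1 / 36 * (cr a b c' d) ^ ((1 : ℝ) / 3) :=
          mul_le_mul_of_nonneg_right (min_le_left _ _) p1
      _ ≤ c1 / 36 * (36 * (qf b r g * qf c' s g) ^ ((1 : ℝ) / 3)) :=
          mul_le_mul_of_nonneg_left l1 (by positivity)
      _ = c1 * (qf b r g * qf c' s g) ^ ((1 : ℝ) / 3) := by ring
      _ ≤ _ := g1
  · have l1 := rp_le (by positivity) x0.le (by norm_num) k2
    calc _ ≤ C1 * (qf b r g * qf c' s g) ^ ((1 : ℝ) / 3) := g2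
      _ ≤ C1 * (144 * (cr a b c' d) ^ ((1 : ℝ) / 3)) := mul_le_mul_of_nonneg_left l1 hC1.le
      _ = C1 * 144 * (cr a b c' d) ^ ((1 : ℝ) / 3) := by ring
      _ ≤ _ := mul_le_mul_of_nonneg_right (le_max_left _ _) p1
  · rcases k3 with k | k
    · have l1 := rp_le (by linarith) q3.le (by norm_num) k
      calc _ ≤ c2 / 12 * (1 - cr a b c' d) ^ ((1 : ℝ) / 3) :=
            mul_le_mul_of_nonneg_right ((min_le_right _ _).trans (min_le_left _ _)) p2
        _ ≤ c2 / 12 * (12 * (qf b g r) ^ ((1 : ℝ) / 3)) :=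
            mul_le_mul_of_nonneg_left l1 (by positivity)
        _ = c2 * (qf b g r) ^ ((1 : ℝ) / 3) := by ring
        _ ≤ _ := g3
    · have l1 := rp_le (by linarith) q4.le (by norm_num) k
      calc _ ≤ c3 / 12 * (1 - cr a b c' d) ^ ((1 : ℝ) / 3) :=
            mul_le_mul_of_nonneg_right ((min_le_right _ _).trans (min_le_right _ _)) p2
        _ ≤ c3 / 12 * (12 * (qf c' g s) ^ ((1 : ℝ) / 3)) :=
            mul_le_mul_of_nonneg_left l1 (by positivity)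
        _ = c3 * (qf c' g s) ^ ((1 : ℝ) / 3) := by ring
        _ ≤ _ := g4
  · have hk : qf b g ((min r s : ℕ) : ℝ) ≤ 48 * (1 - cr a b c' d) := by
      rcases le_total r s with h | h
      · rw [min_eq_left h]; linarith
      · rw [min_eq_right h]
        have hbc' : |(b : ℝ) - c'| ≤ g := by
          have : |b - c'| ≤ (g : ℤ) := by rw [abs_le]; omega
          exact_mod_cast this
        have := qf_base hs0 hg0 hbc'
        linarith
    have q5 := qf_pos b (r := (g : ℝ)) (g := ((min r s : ℕ) : ℝ)) hg0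
      (by exact_mod_cast (by omega : 1 ≤ min r s))
    have l1 := rp_le q5.le (by linarith : (0 : ℝ) ≤ 1 - cr a b c' d) (by norm_num) hk
    calc _ ≤ C2 * (qf b g ((min r s : ℕ) : ℝ)) ^ ((1 : ℝ) / 3) := g5
      _ ≤ C2 * (48 * (1 - cr a b c' d) ^ ((1 : ℝ) / 3)) :=
          mul_le_mul_of_nonneg_left l1 hC20.le
      _ = C2 * 48 * (1 - cr a b c' d) ^ ((1 : ℝ) / 3) := by ring
      _ ≤ _ := mul_le_mul_of_nonneg_right (le_max_right _ _) p2

end QC
end TH976
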