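import Pool.Agent.TH976.QC.Low

/-!
Reflection in the diagonal; summary of the bounds in a box.
-/

set_option autoImplicit false

namespace TH976
namespace QC
open Finset H974 Pool.Agent.H160R2.CV H362P
open Pool.Agent.H160R2.CV.Quad Pool.Agent.H389R2.CD

theorem bt_refl (t : ℤ) : bt (-t) = ((bt t).2, (bt t).1) := by
  unfold bt
  simp only [neg_neg]

theorem CNq_refl (a b c d N : ℤ) :
    Pr P (RE 0 N 0 N) (CNq (-d) (-c) (-b) (-a)) = Pr P (RE 0 N 0 N) (CNq a b c d) := by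
  have e : RE 0 N 0 N = tps.mp (RE 0 N 0 N) := by rw [tps_RE]
  conv_lhs => rw [e]
  change Pr (fun _ => (1 / 2 : ℝ)) _ _ = _
  rw [LSym.pr]
  apply Pr_congr
  intro F _
  have hr : ∀ s t : ℤ, Reach (↑(tps.mp F) : Set Edg) (bt (-s)) (bt (-t)) ↔
      Reach (↑F : Set Edg) (bt s) (bt t) := by
    intro s t
    rw [LSym.coe_mp, bt_refl, bt_refl]
    exact tps.reach_iff (F := (F : Set Edg)) (u := bt s) (v := bt t)
  constructor
  · rintro ⟨x, y, hx, hy, h⟩
    refine ⟨-y, -x, by omega, by omega, ?_⟩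
    have h2 := (hr (-y) (-x)).mp
    rw [neg_neg, neg_neg] at h2
    exact h2 h.symm
  · rintro ⟨x, y, hx, hy, h⟩
    exact ⟨-y, -x, by omega, by omega, (hr y x).mpr h.symm⟩

theorem CNq_refl' (a b c d N : ℤ) :
    Pr P (RE 0 N 0 N) (fun F => ¬ CNq (-d) (-c) (-b) (-a) F) =
      Pr P (RE 0 N 0 N) (fun F => ¬ CNq a b c d F) := by
  have h1 := Pr_not (p := P) (RE 0 N 0 N) (CNq (-d) (-c) (-b) (-a))
  have h2 := Pr_not (p := P) (RE 0 N 0 N) (CNq a b c d)
  have h3 := CNq_refl a b c d N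
  unfold Pr at *
  linarith

theorem Mf_neg (t : ℤ) (n : ℝ) : Mf (-t) n = Mf t n := by
  unfold Mf
  push_cast
  rw [abs_neg]

theorem qf_neg (t : ℤ) (r g : ℝ) : qf (-t) r g = qf t r g := by
  unfold qf
  rw [Mf_neg, Mf_neg]

/-- the upper bound for the probability of no connection: a dual arm from the gap -/
theorem compl_up_exp (hA : ArS) : ∃ C : ℝ, 1 ≤ C ∧ ∀ (a b c' d : ℤ) (r s g m : ℕ), 1 ≤ r →
    1 ≤ s → 1 ≤ g → (r : ℤ) = b - a + 1 → (s : ℤ) = d - c' + 1 → (g : ℤ) = c' - b →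
    m = min r s → ∀ N : ℤ, |b| + |c'| + r + s + 10 ≤ N →
    Pr P (RE 0 N 0 N) (fun F => ¬ CNq a b c' d F) ≤ C * (qf b g m) ^ ((1 : ℝ) / 3) := by
  obtain ⟨K, hK⟩ := ratio_cmp hA
  have hK1 : 1 ≤ K := (hK 0 1 1 le_rfl le_rfl).hk
  have k40 := k4_pos
  have k41 := k4_le
  have kd0 := kd_pos
  have kd1 := kd_le
  have hkk : 1 ≤ (k4 * kd)⁻¹ := by
    rw [inv_eq_one_div, le_div_iff₀ (by positivity), one_mul]
    calc k4 * kd ≤ 1 * 1 := mul_le_mul k41 kd1 kd0.le zero_le_one
      _ = 1 := by norm_num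
  have hkK : 1 ≤ (k4 * kd)⁻¹ * K := Cmp.one_le_mul' hkk hK1
  refine ⟨(k4 * kd)⁻¹ * K * 1000, by nlinarith, ?_⟩
  -- the case where the gap is not contained in the vertical axis
  have main : ∀ (a b c' d : ℤ) (r s g m : ℕ), 1 ≤ r →
    1 ≤ s → 1 ≤ g → (r : ℤ) = b - a + 1 → (s : ℤ) = d - c' + 1 → (g : ℤ) = c' - b →
    m = min r s → 1 ≤ c' → ∀ N : ℤ, |b| + |c'| + r + s + 10 ≤ N → 
    Pr P (RE 0 N 0 N) (fun F => ¬ CNq a b c' d F) ≤
      (k4 * kd)⁻¹ * K * 250 * (qf b g m) ^ ((1 : ℝ) / 3) := by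
    intro a b c' d r s g m hr hs hg hrr hss hgg hm hc N hN
    have hb1 := le_abs_self b
    have hb2 := neg_abs_le b
    have hc1 := le_abs_self c'
    have hc2 := neg_abs_le c'
    have hm1 : 1 ≤ m := by omega
    have hg1 : (1 : ℝ) ≤ g := by exact_mod_cast hg
    have hm1' : (1 : ℝ) ≤ m := by exact_mod_cast hm1
    have hq0 := qf_pos b (r := (g : ℝ)) (g := (m : ℝ)) (by linarith) (by linarith)
    have hq1 : qf b (g : ℝ) m ≤ 1 := min_le_left _ _
    have pg := Mf_pos b (n := (g : ℝ)) (by linarith)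
    have pm := Mf_pos b (n := (m : ℝ)) (by linarith)
    rcases Nat.lt_or_ge (2 * g + 6) m with h | h
    · -- a long interval on both sides
      obtain ⟨n, hn⟩ : ∃ n, n = (m - 5) / 2 := ⟨_, rfl⟩
      obtain ⟨t0, ht0⟩ : ∃ t0, t0 = max b 0 := ⟨_, rfl⟩
      have hgn : g < n := by omega
      have h1 := compl_up (a := a) (b := b) (c := c') (d := d) (N := N) (t0 := t0) (g := g)
        (n := n) (by omega) hc ht0 hgg hgn (by omega) (by omega) (by omega)
      have h2 := bq_up (bt_in t0) hg hgn.le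
      have h3 := (hK t0 g n hg (by omega)).l
      have ht : |((t0 : ℤ) : ℝ) - b| ≤ g := by
        have : |t0 - b| ≤ (g : ℤ) := by rw [abs_le]; omega
        exact_mod_cast this
      have ht' : |(b : ℝ) - (t0 : ℤ)| ≤ g := by rw [abs_sub_comm]; exact ht
      have hgn' : (g : ℝ) ≤ n := by exact_mod_cast hgn.le
      have hn1 : (1 : ℝ) ≤ n := hg1.trans hgn'
      have pn := Mf_pos t0 (n := (n : ℝ)) (by linarith)
      have pg' := Mf_pos t0 (n := (g : ℝ)) (by linarith)
      have i1 : Mf t0 g ≤ 2 * Mf b g := Mf_shift (by linarith) ht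
      have i2 : Mf b m ≤ 50 * Mf t0 n := by
        have h4 : (m : ℝ) ≤ 5 * n := by exact_mod_cast (by omega : m ≤ 5 * n)
        calc Mf b m ≤ Mf b (5 * n) := Mf_mono b (by linarith) h4
          _ ≤ 5 ^ 2 * Mf b n := Mf_scale b (by linarith) (by norm_num)
          _ ≤ 5 ^ 2 * (2 * Mf t0 n) := by
              have := Mf_shift (s := b) (t := t0) (n := (n : ℝ)) (by linarith)
                (ht'.trans hgn')
              linarith
          _ = _ := by ring
      have i3 : Mf t0 g / Mf t0 n ≤ 100 * qf b g m := by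
        have h5 : qf b g m = Mf b g / Mf b m := by
          unfold qf
          refine min_eq_right ((div_le_one pm).mpr (Mf_mono b (by linarith) ?_))
          exact_mod_cast (by omega : g ≤ m)
        rw [h5, mul_div_assoc', div_le_div_iff₀ pn pm]
        have := mul_le_mul i1 i2 pm.le (by positivity)
        nlinarith
      have i4 : (Mf t0 g / Mf t0 n) ^ ((1 : ℝ) / 3) ≤ 100 * (qf b g m) ^ ((1 : ℝ) / 3) := by
        calc (Mf t0 g / Mf t0 n) ^ ((1 : ℝ) / 3) ≤ (100 * qf b g m) ^ ((1 : ℝ) / 3) :=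
              Real.rpow_le_rpow (by positivity) i3 (by norm_num)
          _ = (100 : ℝ) ^ ((1 : ℝ) / 3) * (qf b g m) ^ ((1 : ℝ) / 3) :=
              Real.mul_rpow (by norm_num) hq0.le
          _ ≤ 100 * (qf b g m) ^ ((1 : ℝ) / 3) := by
              apply mul_le_mul_of_nonneg_right _ (Real.rpow_nonneg hq0.le _)
              calc (100 : ℝ) ^ ((1 : ℝ) / 3) ≤ (100 : ℝ) ^ (1 : ℝ) :=
                    Real.rpow_le_rpow_of_exponent_le (by norm_num) (by norm_num)
                _ = 100 := Real.rpow_one _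
      have hq3 : 0 ≤ (qf b g m) ^ ((1 : ℝ) / 3) := Real.rpow_nonneg hq0.le _
      calc Pr P (RE 0 N 0 N) (fun F => ¬ CNq a b c' d F) ≤ bq (bt t0) g n := h1
        _ ≤ (k4 * kd)⁻¹ * (aq (bt t0) n / aq (bt t0) g) := h2
        _ ≤ (k4 * kd)⁻¹ * (K * (Mf t0 g / Mf t0 n) ^ ((1 : ℝ) / 3)) :=
            mul_le_mul_of_nonneg_left h3 (by positivity)
        _ ≤ (k4 * kd)⁻¹ * (K * (100 * (qf b g m) ^ ((1 : ℝ) / 3))) :=
            mul_le_mul_of_nonneg_left (mul_le_mul_of_nonneg_left i4 (by linarith))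
              (by positivity)
        _ = (k4 * kd)⁻¹ * K * 100 * (qf b g m) ^ ((1 : ℝ) / 3) := by ring
        _ ≤ _ := by
          apply mul_le_mul_of_nonneg_right _ hq3
          nlinarith
    · -- a short interval
      have h1 : (m : ℝ) ≤ 8 * g := by exact_mod_cast (by omega : m ≤ 8 * g)
      have h2 : Mf b m ≤ 64 * Mf b g := by
        calc Mf b m ≤ Mf b (8 * g) := Mf_mono b (by linarith) h1
          _ ≤ 8 ^ 2 * Mf b g := Mf_scale b (by linarith) (by norm_num)
          _ = _ := by norm_num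
      have h3 : 1 / 64 ≤ qf b g m := by
        unfold qf
        refine le_min (by norm_num) ?_
        rw [div_le_div_iff₀ (by norm_num) pm]
        linarith
      have h4 : (1 : ℝ) / 64 ≤ (qf b g m) ^ ((1 : ℝ) / 3) := by
        calc (1 : ℝ) / 64 ≤ qf b g m := h3
          _ = (qf b g m) ^ (1 : ℝ) := (Real.rpow_one _).symm
          _ ≤ _ := Real.rpow_le_rpow_of_exponent_ge hq0 hq1 (by norm_num)
      have h5 : Pr P (RE 0 N 0 N) (fun F => ¬ CNq a b c' d F) ≤ 1 := Pr_le_one okP _ _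
      nlinarith
  intro a b c' d r s g m hr hs hg hrr hss hgg hm N hN
  have hm1 : 1 ≤ m := by omega
  have hg1 : (1 : ℝ) ≤ g := by exact_mod_cast hg
  have hm1' : (1 : ℝ) ≤ m := by exact_mod_cast hm1
  have hq0 := qf_pos b (r := (g : ℝ)) (g := (m : ℝ)) (by linarith) (by linarith)
  have hq3 : 0 ≤ (qf b g m) ^ ((1 : ℝ) / 3) := Real.rpow_nonneg hq0.le _
  rcases le_or_gt 1 c' with hc | hc
  · refine (main a b c' d r s g m hr hs hg hrr hss hgg hm hc N hN).trans ?_
    apply mul_le_mul_of_nonneg_right _ hq3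
    nlinarith
  · rw [← CNq_refl']
    have h1 := main (-d) (-c') (-b) (-a) s r g m hs hr hg (by omega) (by omega) (by omega)
      (by omega) (by omega) N (by rw [abs_neg, abs_neg]; omega)
    rw [qf_neg] at h1
    refine h1.trans ?_
    have hq0' := qf_pos c' (r := (g : ℝ)) (g := (m : ℝ)) (by linarith) (by linarith)
    have hq1 : qf b (g : ℝ) m ≤ 1 := min_le_left _ _
    -- comparison of the two base points
    have h2 : qf c' (g : ℝ) m ≤ 4 * qf b g m := by
      have pg := Mf_pos b (n := (g : ℝ)) (by linarith)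
      have pm := Mf_pos b (n := (m : ℝ)) (by linarith)
      have pm' := Mf_pos c' (n := (m : ℝ)) (by linarith)
      have hcb : |(c' : ℝ) - b| ≤ g := by
        have : |c' - b| ≤ (g : ℤ) := by rw [abs_le]; omega
        exact_mod_cast this
      have hbc : |(b : ℝ) - c'| ≤ g := by rw [abs_sub_comm]; exact hcb
      rcases le_total (g : ℝ) m with h | h
      · have j1 : Mf c' g ≤ 2 * Mf b g := Mf_shift (by linarith) hcb
        have j2 : Mf b m ≤ 2 * Mf c' m := Mf_shift (by linarith) (hbc.trans h)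
        unfold qf
        rw [mul_min_of_nonneg _ _ (by norm_num : (0 : ℝ) ≤ 4)]
        apply le_min
        · exact (min_le_left _ _).trans (by norm_num)
        · refine (min_le_right _ _).trans ?_
          rw [mul_div_assoc', div_le_div_iff₀ pm' pm]
          have := mul_le_mul j1 j2 pm.le (by positivity)
          nlinarith
      · have j3 : qf b (g : ℝ) m = 1 := by
          unfold qf
          exact min_eq_left ((one_le_div pm).mpr (Mf_mono b (by linarith) h))
        rw [j3]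
        exact (min_le_left _ _).trans (by norm_num)
    have h3 : (qf c' (g : ℝ) m) ^ ((1 : ℝ) / 3) ≤ 4 * (qf b g m) ^ ((1 : ℝ) / 3) := by
      calc (qf c' (g : ℝ) m) ^ ((1 : ℝ) / 3) ≤ (4 * qf b g m) ^ ((1 : ℝ) / 3) :=
            Real.rpow_le_rpow hq0'.le h2 (by norm_num)
        _ = (4 : ℝ) ^ ((1 : ℝ) / 3) * (qf b g m) ^ ((1 : ℝ) / 3) :=
            Real.mul_rpow (by norm_num) hq0.le
        _ ≤ 4 * (qf b g m) ^ ((1 : ℝ) / 3) := by
            apply mul_le_mul_of_nonneg_right _ hq3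
            calc (4 : ℝ) ^ ((1 : ℝ) / 3) ≤ (4 : ℝ) ^ (1 : ℝ) :=
                  Real.rpow_le_rpow_of_exponent_le (by norm_num) (by norm_num)
              _ = 4 := Real.rpow_one _
    calc (k4 * kd)⁻¹ * K * 250 * (qf c' (g : ℝ) m) ^ ((1 : ℝ) / 3) ≤
        (k4 * kd)⁻¹ * K * 250 * (4 * (qf b g m) ^ ((1 : ℝ) / 3)) :=
          mul_le_mul_of_nonneg_left h3 (by positivity)
      _ = _ := by ring

/-- lower bound, right version -/
theorem compl_low' (hA : ArS) : ∃ c : ℝ, 0 < c ∧ ∀ (a b c' d : ℤ) (s g : ℕ), 1 ≤ s → 1 ≤ g →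
    (s : ℤ) = d - c' + 1 → (g : ℤ) = c' - b → ∀ N : ℤ, |d| + |b| + 60 * s + 60 * g + 10 ≤ N →
    c * (qf c' g s) ^ ((1 : ℝ) / 3) ≤ Pr P (RE 0 N 0 N) (fun F => ¬ CNq a b c' d F) := by
  obtain ⟨κ, hκ, hL⟩ := compl_low hA
  refine ⟨κ, hκ, ?_⟩
  intro a b c' d s g hs hg hss hgg N hN
  rw [← CNq_refl', ← qf_neg]
  exact hL (-d) (-c') (-b) (-a) s g hs hg (by omega) (by omega) N
    (by rw [abs_neg, abs_neg]; omega)

end QC
end TH976
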